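import Pool.Agent.W5h93.FM.Bord

/-!
# An exterior square criterion for unramified representations

Let `K/F` be a finite Galois extension of number fields and `p` a prime, `p = 2` included. Let `G` be the
Galois group of the maximal `p`-extension of `K` in which no finite and no real place of `K` ramifies,
and let `p ^ e`, `e ≥ 1`, kill all finite abelian quotients of `G` (the `p`-part of the class group of
`K`). The group `G_F` acts by conjugation on the maximal elementary abelian quotient `W` of `G` (the class
group of `K` modulo `p`). Suppose that no nonzero quotient `M` of the representation `W` is isomorphic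
to a subrepresentation of a quotient of its exterior square (of `M ⊗ M`, if `p ^ e = 2`). Let `A` be a
Noetherian local ring with finite residue field of characteristic `p` such that multiplication by `p` is
injective and of degree `e0` on the associated graded ring, for example a discrete valuation ring in
which `p` has valuation `e0`. Then every continuous homomorphism from `G` to `GL_n(A)`, `n` arbitrary,
which is trivial modulo `𝔪 ^ (e e0)` (for example modulo `p ^ e`) is trivial. More generally, it is
trivial if for some `r ≥ 1` all products of `r` matrices `ρ g - 1` vanish modulo `𝔪 ^ (r e e0)`.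
-/

set_option autoImplicit false

open NumberField IsLocalRing

namespace Pool.Agent.Results.MP_ca71b5_nt.ExteriorSquare

/-- The homomorphism `f` from the absolute Galois group of `K` to a group `E` is unramified at all
finite and real places. At the finite places: for every maximal ideal `P` of the ring of all
algebraic integers, the inertia group at `P` in the absolute Galois group of `K` is mapped to `1`.
At the real places: all complex conjugations, that is, all elements of order two of the absolute
Galois group, are mapped to `1`. -/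
def Unramified {F : Type} [Field F] {K : IntermediateField F (AlgebraicClosure F)}
    {E : Type} [Group E] (f : K.fixingSubgroup →* E) : Prop :=
  (∀ P : Ideal (𝓞 (AlgebraicClosure F)), P.IsMaximal → ∀ τ : K.fixingSubgroup,
    (∀ x : 𝓞 (AlgebraicClosure F), (τ : Gal(AlgebraicClosure F/F)) • x - x ∈ P) → f τ = 1) ∧
  ∀ τ : K.fixingSubgroup, τ * τ = 1 → f τ = 1

/-- `p ^ e` kills the Galois group of every unramified finite abelian extension of `K` of `p`-power
degree. -/
def AbelianExponent {F : Type} [Field F] (K : IntermediateField F (AlgebraicClosure F))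
    (p e : ℕ) : Prop :=
  ∀ (E : Type) [CommGroup E] [Finite E], IsPGroup p E → ∀ f : K.fixingSubgroup →* E,
    IsOpen (f.ker : Set K.fixingSubgroup) → Unramified f → ∀ g, f g ^ (p ^ e) = 1

/-- The surjection `π` makes the representation `M` of the absolute Galois group of `F`, in which `p`
is zero, a quotient of the Galois group `W` of the maximal unramified elementary abelian `p`-extension
of `K`, on which the absolute Galois group of `F` acts by conjugation. -/
def IsQuotient {F : Type} [Field F] [CharZero F] (K : IntermediateField F (AlgebraicClosure F))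
    [IsGalois F K] (p : ℕ) (M : Type) [AddCommGroup M]
    [DistribMulAction Gal(AlgebraicClosure F/F) M] (π : K.fixingSubgroup →* Multiplicative M) :
    Prop :=
  (∀ x : M, p • x = 0) ∧ Function.Surjective π ∧ IsOpen (π.ker : Set K.fixingSubgroup) ∧
    Unramified π ∧ ∀ (σ : Gal(AlgebraicClosure F/F)) (g : K.fixingSubgroup),
      Multiplicative.toAdd (π (MulAut.conjNormal σ g)) = σ • Multiplicative.toAdd (π g)

/-- The representation `M` of the group `Γ` is isomorphic to a subrepresentation of a quotient of its
exterior square (of `M ⊗ M`, if `alt` does not hold): there are a representation `E`, an equivariant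
biadditive map `β` from `M × M` to `E`, alternating if `alt` holds, and an injective equivariant map
`ι` from `M` to the subgroup of `E` generated by the values of `β`. -/
def EmbedsInSquare (Γ : Type) [Group Γ] (alt : Prop) (M : Type) [AddCommGroup M]
    [DistribMulAction Γ M] : Prop :=
  ∃ (E : Type) (_ : AddCommGroup E) (_ : DistribMulAction Γ E) (β : M →+ M →+ E) (ι : M →+ E),
    (∀ (σ : Γ) (x y : M), β (σ • x) (σ • y) = σ • β x y) ∧
    (∀ (σ : Γ) (x : M), ι (σ • x) = σ • ι x) ∧
    (alt → ∀ x : M, β x x = 0) ∧ Function.Injective ι ∧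
    ∀ x : M, ι x ∈ AddSubgroup.closure {z : E | ∃ y y' : M, z = β y y'}

/-- `p` belongs to the power `e0` of the maximal ideal `𝔪` of `A`, and multiplication by `p` is injective
from `𝔪 ^ k / 𝔪 ^ (k + 1)` to `𝔪 ^ (k + e0) / 𝔪 ^ (k + e0 + 1)` for all `k`. -/
def HasOrder (A : Type) [CommRing A] [IsLocalRing A] (p e0 : ℕ) : Prop :=
  (p : A) ∈ maximalIdeal A ^ e0 ∧
    ∀ k : ℕ, ∀ x ∈ maximalIdeal A ^ k, (p : A) * x ∈ maximalIdeal A ^ (k + e0 + 1) →
      x ∈ maximalIdeal A ^ (k + 1)

/-- All products of `r` matrices of the form `ρ g - 1` have all their entries in the `s`-th power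
of the maximal ideal. -/
def Depth {F : Type} [Field F] {K : IntermediateField F (AlgebraicClosure F)}
    {A : Type} [CommRing A] [IsLocalRing A] {n : ℕ} (ρ : K.fixingSubgroup →* GL (Fin n) A)
    (r s : ℕ) : Prop :=
  ∀ (g : Fin r → K.fixingSubgroup) (i j : Fin n),
    (List.ofFn fun t => (ρ (g t) : Matrix (Fin n) (Fin n) A) - 1).prod i j ∈ maximalIdeal A ^ s

theorem result (p : ℕ) [Fact p.Prime] (F : Type) [Field F] [NumberField F]
    (K : IntermediateField F (AlgebraicClosure F)) [FiniteDimensional F K] [IsGalois F K]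
    (e : ℕ) (he1 : 1 ≤ e) (he : AbelianExponent K p e)
    (hW : ∀ (M : Type) [AddCommGroup M] [Finite M] [Nontrivial M]
      [DistribMulAction Gal(AlgebraicClosure F/F) M] (π : K.fixingSubgroup →* Multiplicative M),
      IsQuotient K p M π → ¬ EmbedsInSquare Gal(AlgebraicClosure F/F) (p ^ e ≠ 2) M)
    (A : Type) [CommRing A] [IsLocalRing A] [IsNoetherianRing A] [TopologicalSpace A]
    (hA : IsAdic (maximalIdeal A)) (hfin : Finite (ResidueField A))
    (hp : (p : A) ∈ maximalIdeal A) (e0 : ℕ) (horder : HasOrder A p e0) (n : ℕ)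
    (ρ : K.fixingSubgroup →* GL (Fin n) A) (hρ : Continuous ρ) (hur : Unramified ρ)
    (hdepth : (∀ (g : K.fixingSubgroup) (i j : Fin n),
        ((ρ g : Matrix (Fin n) (Fin n) A) - 1) i j ∈ maximalIdeal A ^ (e * e0)) ∨
      ∃ r : ℕ, 1 ≤ r ∧ Depth ρ r (r * e * e0)) :
    ∀ g, ρ g = 1 := by
  have hpp : p.Prime := Fact.out
  have hfi : Finite (Gal(AlgebraicClosure F/F) ⧸ K.fixingSubgroup) := by
    have : CompactSpace Gal(AlgebraicClosure F/F) := inferInstance
    exact Subgroup.quotient_finite_of_isOpen _ (IntermediateField.fixingSubgroup_isOpen K)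
  set Ur : Set K.fixingSubgroup :=
    Pool.Agent.Y802.GC.UrN ∅ K.fixingSubgroup ∪ {τ | τ * τ = 1} with hUr
  have key : ∀ (E : Type) [Group E] (f : K.fixingSubgroup →* E),
      (∀ τ ∈ Ur, f τ = 1) ↔ Unramified f := by
    intro E _ f
    constructor
    · intro h
      exact ⟨fun P hP τ hτ => h τ (Or.inl ⟨P, hP, Set.notMem_empty _, hτ⟩),
        fun τ hτ => h τ (Or.inr hτ)⟩
    · rintro h τ (⟨P, hP, -, hτ⟩ | hτ)
      · exact h.1 P hP τ hτ
      · exact h.2 τ hτ
  have hconj : ∀ (g : Gal(AlgebraicClosure F/F)) (τ : K.fixingSubgroup), τ ∈ Ur →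
      MulAut.conjNormal g τ ∈ Ur := by
    rintro g τ (hτ | hτ)
    · exact Or.inl (Pool.Agent.Y802.GC.UrN_conj ∅ _ g τ hτ)
    · refine Or.inr ?_
      show MulAut.conjNormal g τ * MulAut.conjNormal g τ = 1
      have h2 : τ * τ = 1 := hτ
      rw [← map_mul, h2, map_one]
  have hexp : ∀ (E : Type) [CommGroup E] [Finite E], IsPGroup p E →
      ∀ f : K.fixingSubgroup →* E, IsOpen (f.ker : Set K.fixingSubgroup) →
        (∀ τ ∈ Ur, f τ = 1) → ∀ g, f g ^ (p ^ e) = 1 :=
    fun E _ _ hE f hf hfu g => he E hE f hf ((key E f).1 hfu) g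
  have hV : ∀ (M : Type) [AddCommGroup M] [Finite M]
      [DistribMulAction Gal(AlgebraicClosure F/F) M] (π : K.fixingSubgroup →* Multiplicative M),
      (∀ x : M, p • x = 0) → Function.Surjective π → IsOpen (π.ker : Set K.fixingSubgroup) →
      (∀ τ ∈ Ur, π τ = 1) → (∀ (σ : Gal(AlgebraicClosure F/F)) (g : K.fixingSubgroup),
        (π (MulAut.conjNormal σ g)).toAdd = σ • (π g).toAdd) →
      (∃ x : M, x ≠ 0) → ¬ Pool.Agent.W5h93.FM.Embeds Gal(AlgebraicClosure F/F) (p ^ e ≠ 2) M := by
    intro M _ _ _ π h1 h2 h3 h4 h5 ⟨x, hx⟩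
    have : Nontrivial M := ⟨x, 0, hx⟩
    exact hW M π ⟨h1, h2, h3, (key _ π).1 h4, h5⟩
  have hdepth' : ∃ r : ℕ, 1 ≤ r ∧ Depth ρ r (r * e * e0) := by
    rcases hdepth with h | h
    · refine ⟨1, le_rfl, fun g i j => ?_⟩
      rw [one_mul]
      simpa using h (g 0) i j
    · exact h
  obtain ⟨r, hr, hd⟩ := hdepth'
  exact Pool.Agent.W5h93.FM.border hpp hA hfin hp horder he1 hconj hexp hV ρ hρ
    ((key _ ρ).2 hur) hr le_rfl hd

end Pool.Agent.Results.MP_ca71b5_nt.ExteriorSquare
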