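import Pool.Agent.W5h3.FP.Fin
import Pool.Agent.W5h3.FP.MFm
import Pool.Agent.W5h3.FP.Cub

/-!
# Galois representations that are trivial modulo `p ^ e` over a field `K`

Let `p` be a prime number, `A` a discrete valuation ring of characteristic `0` with maximal ideal
`(p)`, for example `ℤ_p`, and `K/F` a finite Galois extension of number fields. Let `p ^ e` kill the
`p`-class group of `K` (in the narrow sense if `p = 2`), and let `ρ : G_F → GL_n(A)` be continuous,
trivial modulo `p ^ e` on `G_K` and unramified over `K`. Then `ρ(G_K)` is abelian modulo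
`p ^ (2 e)`, and the case in which `ρ` is not trivial modulo `p ^ (e + 1)` on `G_K` is the first one
that is not excluded by this alone: it occurs for uniform groups such as the congruence subgroups of
`SL_2(ℤ_p)`.

1. Let `p ^ e ≠ 2`. If `ρ` is not trivial on `G_K`, then there is a non-trivial equivariant
   homomorphism from the class group of `K` to the matrices over `A/p` with the adjoint action,
   whose image `L` is contained in the additive group generated by the commutators of the elements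
   of `L`. For `n = 2` it follows that `p` is odd and that `L` spans the space of the matrices of
   trace zero over `A/p`.
2. Let `Gal(K/F)` act trivially on the `p`-class group of `K` modulo `p`, and suppose that the
   commutators in the ring of the matrices that commute with `ρ` modulo `p` are nilpotent. Then `ρ`
   is trivial on `G_K` if `p ^ e ≠ 2`. If `p ^ e = 2`, the same holds up to central elements of order
   two, if the idempotents of that ring are central.
3. The commutators are nilpotent if the residue field is finite and `ρ` modulo `p` is a direct sum of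
   pairwise non-isomorphic indecomposable representations. Both conditions hold if that ring is
   commutative, for example if `n = 2` and `ρ` modulo `p` is not scalar, and if the residue field is
   finite and `ρ` modulo `p` is indecomposable.
4. The action is trivial if `K/F` is quadratic, `p = 2` and the narrow class number of `F` is odd.
5. Let `ρ s` have a cyclic vector modulo `p`, for some `s` in `G_F`; for `n = 2` this means that `ρ s`
   is not scalar modulo `p`. If `1 < n < p` and `(s - 1) ^ 2` kills the class group of `K` modulo `p`,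
   then `ρ` is trivial on `G_K`; the latter condition holds for all `s` if `p = 3`, `K/F` is cubic and
   the class number of `F` is prime to `3`, and for `n = 2` no condition on `ρ` modulo `3` is needed
   in this case. If `Gal(K/F)` acts trivially on the whole `p`-class group
   of `K`, it suffices that `ρ` is trivial modulo `p` on `G_K`: then `ρ(G_K)` is trivial for odd `p`,
   and central in `ρ(G_F)` and killed by `2` for `p = 2`.
6. Quadratic fields and cyclic fields of degree `p` over `ℚ` for which 2. applies with `e = 1`, with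
   examples for which the `p`-class field tower is infinite.
7. For `p = n = 2` and `F = ℚ`, the condition on `ρ` modulo `2` can be replaced by a condition on
   the determinant, if the narrow class group of the corresponding quadratic field has no element of
   order four.
-/

set_option autoImplicit false

open NumberField Matrix IsLocalRing

namespace Pool.Agent.Results.MP_ca71b5_nt.MultiplicityFree

/-- The algebraic extensions of `F` inside the algebraic closure. -/
abbrev Ext (F : Type) [Field F] : Type := IntermediateField F (AlgebraicClosure F)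

/-- `τ` lies in the inertia group at the prime `P` of the ring of all algebraic integers. -/
def InInertia {F : Type} [Field F] (P : Ideal (𝓞 (AlgebraicClosure F)))
    (τ : Gal(AlgebraicClosure F/F)) : Prop :=
  ∀ x : 𝓞 (AlgebraicClosure F), τ • x - x ∈ P

/-- The homomorphism `f` on the absolute Galois group of `K` is continuous, that is, has open
kernel, and is unramified at all finite primes. -/
def UnramifiedHom {F : Type} [Field F] (K : Ext F) {E : Type} [Group E]
    (f : K.fixingSubgroup →* E) : Prop :=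
  IsOpen (f.ker : Set K.fixingSubgroup) ∧
    ∀ P : Ideal (𝓞 (AlgebraicClosure F)), P.IsMaximal → ∀ τ : K.fixingSubgroup,
      InInertia P (τ : Gal(AlgebraicClosure F/F)) → f τ = 1

/-- The `p`-class group of `K` (in the narrow sense, if `p = 2`) is killed by `p ^ e`: so is every
continuous homomorphism from the absolute Galois group of `K` to a finite abelian `p`-group that is
unramified at all finite primes. -/
def KilledBy (p e : ℕ) {F : Type} [Field F] (K : Ext F) : Prop :=
  ∀ (E : Type) [CommGroup E] [Finite E], IsPGroup p E → ∀ f : K.fixingSubgroup →* E,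
    UnramifiedHom K f → ∀ g, f g ^ p ^ e = 1

/-- The Galois group of `F` acts trivially on the `p`-class group of `K` modulo `p`: every
continuous homomorphism `f` from the absolute Galois group of `K` to a finite abelian group of
exponent `p` that is unramified at all finite primes is invariant under conjugation. -/
def TrivialAction (p : ℕ) {F : Type} [Field F] (K : Ext F) : Prop :=
  ∀ (E : Type) [CommGroup E] [Finite E] (f : K.fixingSubgroup →* E), (∀ g, f g ^ p = 1) →
    UnramifiedHom K f → ∀ (t : Gal(AlgebraicClosure F/F)) (x y : K.fixingSubgroup),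
      (y : Gal(AlgebraicClosure F/F)) = t * x * t⁻¹ → f y = f x

/-- The Galois group of `F` acts trivially on the whole `p`-class group of `K` (in the narrow sense,
if `p = 2`): every continuous homomorphism `f` from the absolute Galois group of `K` to a finite
abelian `p`-group that is unramified at all finite primes is invariant under conjugation. -/
def TrivialFullAction (p : ℕ) {F : Type} [Field F] (K : Ext F) : Prop :=
  ∀ (E : Type) [CommGroup E] [Finite E], IsPGroup p E → ∀ f : K.fixingSubgroup →* E,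
    UnramifiedHom K f → ∀ (t : Gal(AlgebraicClosure F/F)) (x y : K.fixingSubgroup),
      (y : Gal(AlgebraicClosure F/F)) = t * x * t⁻¹ → f y = f x

/-- `(s - 1) ^ 2` kills the `p`-class group of `K` modulo `p`: every continuous homomorphism `f` from
the absolute Galois group of `K` to a finite abelian group of exponent `p` that is unramified at all
finite primes satisfies `f (s ^ 2 x s ^ (-2)) f (x) = f (s x s⁻¹) ^ 2`. -/
def SquareZero (p : ℕ) {F : Type} [Field F] (K : Ext F) (s : Gal(AlgebraicClosure F/F)) : Prop :=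
  ∀ (E : Type) [CommGroup E] [Finite E] (f : K.fixingSubgroup →* E), (∀ g, f g ^ p = 1) →
    UnramifiedHom K f → ∀ x y z : K.fixingSubgroup,
      (y : Gal(AlgebraicClosure F/F)) = s * x * s⁻¹ →
        (z : Gal(AlgebraicClosure F/F)) = s * y * s⁻¹ → f z * f x = f y * f y

/-- The class number of `F` (in the narrow sense, if `p = 2`) is prime to `p`: every continuous
homomorphism from the absolute Galois group of `F` to a finite abelian `p`-group that is unramified
at all finite primes is trivial. -/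
def ClassNumberPrimeTo (p : ℕ) (F : Type) [Field F] : Prop :=
  ∀ (E : Type) [CommGroup E] [Finite E], IsPGroup p E → ∀ f : Gal(AlgebraicClosure F/F) →* E,
    IsOpen (f.ker : Set Gal(AlgebraicClosure F/F)) →
      (∀ P : Ideal (𝓞 (AlgebraicClosure F)), P.IsMaximal → ∀ τ : Gal(AlgebraicClosure F/F),
        InInertia P τ → f τ = 1) → ∀ g, f g = 1

section

variable {F : Type} [Field F] {A : Type} [CommRing A] {n : ℕ}

/-- `ρ` is trivial modulo `p ^ k` on the absolute Galois group of `K`. -/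
def TrivialModulo (p k : ℕ) (K : Ext F) (ρ : Gal(AlgebraicClosure F/F) →* GL (Fin n) A) : Prop :=
  ∀ g ∈ K.fixingSubgroup, ∀ i j, (p : A) ^ k ∣ ((ρ g : Matrix (Fin n) (Fin n) A) - 1) i j

/-- The elements of the inertia groups of `K` have images of finite order, for `p = 2` they act
trivially. -/
def FiniteInertia (p : ℕ) (K : Ext F) (ρ : Gal(AlgebraicClosure F/F) →* GL (Fin n) A) : Prop :=
  ∀ P : Ideal (𝓞 (AlgebraicClosure F)), P.IsMaximal → ∀ τ ∈ K.fixingSubgroup, InInertia P τ →
    (∃ k : ℕ, k ≠ 0 ∧ ρ τ ^ k = 1) ∧ (p = 2 → ρ τ = 1)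

/-- The matrix `X` commutes with `ρ` modulo `p`. -/
def CommutesModulo (p : ℕ) (ρ : Gal(AlgebraicClosure F/F) →* GL (Fin n) A)
    (X : Matrix (Fin n) (Fin n) A) : Prop :=
  ∀ t, ∀ i j, (p : A) ∣ (X * (ρ t : Matrix (Fin n) (Fin n) A) - ρ t * X) i j

/-- The ring of the matrices that commute with `ρ` modulo `p` is commutative. -/
def Commutative (p : ℕ) (ρ : Gal(AlgebraicClosure F/F) →* GL (Fin n) A) : Prop :=
  ∀ X Y : Matrix (Fin n) (Fin n) A, CommutesModulo p ρ X → CommutesModulo p ρ Y →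
    ∀ i j, (p : A) ∣ (X * Y - Y * X) i j

/-- The commutators in the ring of the matrices that commute with `ρ` modulo `p` are nilpotent. -/
def NilpotentCommutators (p : ℕ) (ρ : Gal(AlgebraicClosure F/F) →* GL (Fin n) A) : Prop :=
  ∀ X Y : Matrix (Fin n) (Fin n) A, CommutesModulo p ρ X → CommutesModulo p ρ Y →
    ∃ m : ℕ, ∀ i j, (p : A) ∣ ((X * Y - Y * X) ^ m) i j

/-- The idempotents in the ring of the matrices that commute with `ρ` modulo `p` are central. -/
def CentralIdempotents (p : ℕ) (ρ : Gal(AlgebraicClosure F/F) →* GL (Fin n) A) : Prop :=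
  ∀ X Y : Matrix (Fin n) (Fin n) A, CommutesModulo p ρ X → CommutesModulo p ρ Y →
    (∀ i j, (p : A) ∣ (X * X - X) i j) → ∀ i j, (p : A) ∣ (X * Y - Y * X) i j

/-- The representation `ρ` modulo `p` is indecomposable: the only idempotents in the ring of the
matrices that commute with `ρ` modulo `p` are `0` and `1`. -/
def Indecomposable (p : ℕ) (ρ : Gal(AlgebraicClosure F/F) →* GL (Fin n) A) : Prop :=
  ∀ X : Matrix (Fin n) (Fin n) A, CommutesModulo p ρ X → (∀ i j, (p : A) ∣ (X * X - X) i j) →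
    (∀ i j, (p : A) ∣ X i j) ∨ (∀ i j, (p : A) ∣ (X - 1) i j)

/-- The matrix `X` over `A/p` commutes with `ρ`. -/
def CommutesOver (p : ℕ) (ρ : Gal(AlgebraicClosure F/F) →* GL (Fin n) A)
    (X : Matrix (Fin n) (Fin n) (A ⧸ Ideal.span {(p : A)})) : Prop :=
  ∀ t, X * (ρ t : Matrix (Fin n) (Fin n) A).map (Ideal.Quotient.mk _) =
    (ρ t : Matrix (Fin n) (Fin n) A).map (Ideal.Quotient.mk _) * X

/-- The representation `ρ` modulo `p` is a direct sum of pairwise non-isomorphic indecomposable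
representations: there are orthogonal idempotents `E_i` with sum `1` in the ring of the matrices over
`A/p` that commute with `ρ` (the projections to the summands), such that the only idempotents `X` of
this ring with `E_i X = X = X E_i` are `0` and `E_i` (the summands are indecomposable), and such that
for `i ≠ j` there are no `X`, `Y` in this ring with `E_i X = X = X E_j`, `E_j Y = Y = Y E_i`,
`X Y = E_i` and `Y X = E_j` (mutually inverse maps between the summands). -/
def SumOfDistinctIndecomposables (p : ℕ) (ρ : Gal(AlgebraicClosure F/F) →* GL (Fin n) A) : Prop :=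
  ∃ (m : ℕ) (E : Fin m → Matrix (Fin n) (Fin n) (A ⧸ Ideal.span {(p : A)})),
    (∀ i, CommutesOver p ρ (E i)) ∧ (∀ i, E i * E i = E i) ∧ (∀ i j, i ≠ j → E i * E j = 0) ∧
    ∑ i, E i = 1 ∧
    (∀ i X, CommutesOver p ρ X → X * X = X → E i * X = X → X * E i = X → X = 0 ∨ X = E i) ∧
    ∀ i j, i ≠ j → ∀ X Y, CommutesOver p ρ X → CommutesOver p ρ Y → E i * X = X → X * E j = X →
      E j * Y = Y → Y * E i = Y → ¬ (X * Y = E i ∧ Y * X = E j)

/-- `M` is a scalar matrix modulo `p`. -/
def ScalarModulo (p : ℕ) (M : Matrix (Fin 2) (Fin 2) A) : Prop :=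
  (p : A) ∣ M 0 1 ∧ (p : A) ∣ M 1 0 ∧ (p : A) ∣ M 0 0 - M 1 1

/-- Some `ρ s` is not a scalar matrix modulo `p`. -/
def NotScalar (p : ℕ) (ρ : Gal(AlgebraicClosure F/F) →* GL (Fin 2) A) : Prop :=
  ∃ s, ¬ ScalarModulo p (ρ s : Matrix (Fin 2) (Fin 2) A)

/-- `ρ s` has a cyclic vector modulo `p`: there is a vector `v` such that the matrix with the columns
`v, ρ(s) v, ..., ρ(s) ^ (n - 1) v` is invertible (over a local ring this is a condition modulo the
maximal ideal). -/
def CyclicAt (ρ : Gal(AlgebraicClosure F/F) →* GL (Fin n) A) (s : Gal(AlgebraicClosure F/F)) :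
    Prop :=
  ∃ v : Fin n → A, IsUnit (Matrix.of fun i j : Fin n =>
    ((ρ s : Matrix (Fin n) (Fin n) A) ^ (j : ℕ) *ᵥ v) i).det

/-- The situation: `K/F` is a finite Galois extension, `p ^ e` kills the `p`-class group of `K`, and
`ρ` is continuous, trivial modulo `p ^ e` on `G_K` and has finite inertia. -/
def Situation [TopologicalSpace A] (p e : ℕ) (K : Ext F)
    (ρ : Gal(AlgebraicClosure F/F) →* GL (Fin n) A) : Prop :=
  FiniteDimensional F K ∧ IsGalois F K ∧ KilledBy p e K ∧ Continuous ρ ∧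
    TrivialModulo p e K ρ ∧ FiniteInertia p K ρ

end

/-- Trivial action. -/
def MainTheorem (p e n : ℕ) (F : Type) [Field F] (A : Type) [CommRing A] [TopologicalSpace A] :
    Prop :=
  ∀ (K : Ext F) (ρ : Gal(AlgebraicClosure F/F) →* GL (Fin n) A), Situation p e K ρ →
    TrivialAction p K → NilpotentCommutators p ρ → (p ^ e = 2 → CentralIdempotents p ρ) →
      ∀ g ∈ K.fixingSubgroup, (p ^ e ≠ 2 → ρ g = 1) ∧ ρ g ^ p = 1 ∧ ∀ t, ρ g * ρ t = ρ t * ρ g

/-- Trivial action on the whole class group. -/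
def FullAction (p e n : ℕ) (F : Type) [Field F] (A : Type) [CommRing A] [TopologicalSpace A] :
    Prop :=
  (∀ (K : Ext F) (ρ : Gal(AlgebraicClosure F/F) →* GL (Fin n) A), FiniteDimensional F K →
    IsGalois F K → KilledBy p e K → Continuous ρ → TrivialModulo p 1 K ρ → FiniteInertia p K ρ →
      TrivialFullAction p K → (∃ s, CyclicAt ρ s) →
        ∀ g ∈ K.fixingSubgroup,
          (p ≠ 2 → ρ g = 1) ∧ ρ g ^ p = 1 ∧ ∀ t, ρ g * ρ t = ρ t * ρ g) ∧
  ∀ (ρ : Gal(AlgebraicClosure F/F) →* GL (Fin 2) A) (s : Gal(AlgebraicClosure F/F)),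
    ¬ ScalarModulo p (ρ s : Matrix (Fin 2) (Fin 2) A) → CyclicAt ρ s

/-- Elements that act on the class group with a unipotent square. -/
def SquareZeroAction (p e n : ℕ) (F : Type) [Field F] (A : Type) [CommRing A]
    [TopologicalSpace A] : Prop :=
  n < p → p ≠ 2 → ∀ (K : Ext F) (ρ : Gal(AlgebraicClosure F/F) →* GL (Fin n) A),
    Situation p e K ρ → ∀ s, SquareZero p K s → CyclicAt ρ s → ∀ g ∈ K.fixingSubgroup, ρ g = 1

/-- Criteria for the condition on the commuting matrices. -/
def Criteria (p n : ℕ) (F : Type) [Field F] (A : Type) [CommRing A] : Prop :=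
  (∀ ρ : Gal(AlgebraicClosure F/F) →* GL (Fin n) A,
    (Commutative p ρ ∨ (Finite (A ⧸ Ideal.span {(p : A)}) ∧ Indecomposable p ρ)) →
      NilpotentCommutators p ρ ∧ CentralIdempotents p ρ) ∧
  (∀ ρ : Gal(AlgebraicClosure F/F) →* GL (Fin n) A, Finite (A ⧸ Ideal.span {(p : A)}) →
    SumOfDistinctIndecomposables p ρ → NilpotentCommutators p ρ) ∧
  ∀ ρ : Gal(AlgebraicClosure F/F) →* GL (Fin 2) A, NotScalar p ρ → Commutative p ρ

/-- Quadratic extensions, `p = 2`. -/
def QuadraticExtensions (F : Type) [Field F] : Prop :=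
  ClassNumberPrimeTo 2 F → ∀ K : Ext F, Module.finrank F K = 2 → TrivialAction 2 K

/-- The homomorphism `f` from the absolute Galois group of `K` to the matrices over `A/p` is
non-trivial, continuous, unramified at all finite primes and equivariant for the conjugation on `G_K`
and the adjoint action of `ρ` modulo `p`, and its image `L` is contained in the additive group
generated by the commutators of the elements of `L`. (Hence the Lie algebra over `A/p` generated by
`L` is perfect.) -/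
def PerfectQuotient (p : ℕ) {F : Type} [Field F] {A : Type} [CommRing A] {n : ℕ} (K : Ext F)
    (ρ : Gal(AlgebraicClosure F/F) →* GL (Fin n) A)
    (f : K.fixingSubgroup →* Multiplicative (Matrix (Fin n) (Fin n) (A ⧸ Ideal.span {(p : A)}))) :
    Prop :=
  UnramifiedHom K f ∧
    (∀ (t : Gal(AlgebraicClosure F/F)) (x y : K.fixingSubgroup),
      (y : Gal(AlgebraicClosure F/F)) = t * x * t⁻¹ →
        (f y).toAdd * (ρ t : Matrix (Fin n) (Fin n) A).map (Ideal.Quotient.mk _) =
          (ρ t : Matrix (Fin n) (Fin n) A).map (Ideal.Quotient.mk _) * (f x).toAdd) ∧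
    (∃ x, f x ≠ 1) ∧
    ∀ x, (f x).toAdd ∈ AddSubgroup.closure {z | ∃ a b : K.fixingSubgroup,
      z = (f a).toAdd * (f b).toAdd - (f b).toAdd * (f a).toAdd}

/-- Any rank. -/
def AnyRank (p e n : ℕ) (F : Type) [Field F] (A : Type) [CommRing A] [TopologicalSpace A] : Prop :=
  p ^ e ≠ 2 → ∀ (K : Ext F) (ρ : Gal(AlgebraicClosure F/F) →* GL (Fin n) A), Situation p e K ρ →
    (∃ g ∈ K.fixingSubgroup, ρ g ≠ 1) → ∃ f, PerfectQuotient p K ρ f

/-- Rank two. -/
def RankTwo (p e : ℕ) (F : Type) [Field F] (A : Type) [CommRing A] [TopologicalSpace A] : Prop :=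
  ∀ (K : Ext F) (ρ : Gal(AlgebraicClosure F/F) →* GL (Fin 2) A), Situation p e K ρ →
    (p = 2 → 2 ≤ e → ∀ g ∈ K.fixingSubgroup, ρ g = 1) ∧
    (p ≠ 2 → (∃ g ∈ K.fixingSubgroup, ρ g ≠ 1) → ∃ f, PerfectQuotient p K ρ f ∧
      (∀ x, (f x).toAdd.trace = 0) ∧
      ∀ X : Matrix (Fin 2) (Fin 2) (A ⧸ Ideal.span {(p : A)}), X.trace = 0 →
        X ∈ Submodule.span (A ⧸ Ideal.span {(p : A)}) (Set.range fun x => (f x).toAdd))

/-- Cubic extensions, `p = 3`: `(s - 1) ^ 2` kills the class group of `K` modulo `3`, and all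
representations of rank two are trivial on `G_K`. -/
def CubicExtensions (e : ℕ) (F : Type) [Field F] (A : Type) [CommRing A] [TopologicalSpace A] :
    Prop :=
  ClassNumberPrimeTo 3 F → ∀ K : Ext F, Module.finrank F K = 3 → IsGalois F K →
    (∀ s, SquareZero 3 K s) ∧
    ∀ ρ : Gal(AlgebraicClosure F/F) →* GL (Fin 2) A, Situation 3 e K ρ →
      ∀ g ∈ K.fixingSubgroup, ρ g = 1

/-- The prime number `q` is ramified in the field `ℚ(√n)`, for a squarefree integer `n`. -/
def Ramified (n : ℤ) (q : ℕ) : Prop := (q : ℤ) ∣ n ∨ (q = 2 ∧ n % 4 ≠ 1)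

/-- The prime number `q` is inert in the field `ℚ(√n)`, for a squarefree integer `n`. -/
def Inert (n : ℤ) (q : ℕ) : Prop := (q = 2 ∧ n % 8 = 5) ∨ (q ≠ 2 ∧ jacobiSym n q = -1)

/-- The criterion of Rédei and Reichardt for the narrow class group of `ℚ(√D)`, where `D` is
squarefree, to have no element of order four: for all nontrivial decompositions `D = b c` such that
the discriminants of `ℚ(√b)` and `ℚ(√c)` are coprime (`c ≡ 1 mod 4`, without loss of generality),
there is a prime number that is ramified in one of these two fields and inert in the other. -/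
def FourRankZero (D : ℤ) : Prop :=
  ∀ b c : ℤ, b * c = D → c % 4 = 1 → b ≠ 1 → c ≠ 1 →
    (∃ q : ℕ, q.Prime ∧ Ramified c q ∧ Inert b q) ∨ (∃ q : ℕ, q.Prime ∧ Ramified b q ∧ Inert c q)

/-- Quadratic fields whose narrow class group has no element of order four. -/
def QuadraticFields : Prop :=
  ∀ (D : ℤ) (r : AlgebraicClosure ℚ) (K : Ext ℚ), Squarefree D → FourRankZero D →
    r ^ 2 = (D : AlgebraicClosure ℚ) →
      (∀ g : Gal(AlgebraicClosure ℚ/ℚ), g ∈ K.fixingSubgroup ↔ g r = r) →
        KilledBy 2 1 K ∧ TrivialAction 2 K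

/-- The value of the character `χ` of `(ℤ/j)ˣ` at the class of `a`, and `0` if `a` is not prime to
`j`. -/
noncomputable def value {p j : ℕ} (χ : (ZMod j)ˣ →* Multiplicative (ZMod p)) (a : ℕ) : ZMod p :=
  if h : a.Coprime j then (χ (ZMod.unitOfCoprime a h)).toAdd else 0

/-- The condition of Rédei: a vector `y` such that `∑_j χ_j(l) (y_j - y_l) = 0` for all `l` in `T`
is constant on `T`. -/
def Redei (p : ℕ) (T : Finset ℕ) (χ : ∀ l : ℕ, (ZMod l)ˣ →* Multiplicative (ZMod p)) : Prop :=
  ∀ y : ℕ → ZMod p, (∀ l ∈ T, ∑ j ∈ T, value (χ j) l * (y j - y l) = 0) →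
    ∀ l ∈ T, ∀ j ∈ T, y l = y j

/-- The field `K` is cut out by the product of the characters `χ_l`, for `l` in `T`: an element `g`
of the Galois group that raises the `l`-th roots of unity to the power `u_l`, for all `l` in `T`,
fixes `K` if and only if the product of the `χ_l(u_l)` is trivial. -/
def CutOut (p : ℕ) (T : Finset ℕ) (χ : ∀ l : ℕ, (ZMod l)ˣ →* Multiplicative (ZMod p))
    (K : Ext ℚ) : Prop :=
  ∀ (g : Gal(AlgebraicClosure ℚ/ℚ)) (u : ∀ l : ℕ, (ZMod l)ˣ),
    (∀ l ∈ T, ∀ ζ : AlgebraicClosure ℚ, ζ ^ l = 1 → g ζ = ζ ^ (u l : ZMod l).val) →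
      (g ∈ K.fixingSubgroup ↔ ∏ l ∈ T, χ l (u l) = 1)

/-- Cyclic fields of degree `p`. -/
def CyclicFields (p : ℕ) : Prop :=
  ∀ (T : Finset ℕ) (χ : ∀ l : ℕ, (ZMod l)ˣ →* Multiplicative (ZMod p)) (K : Ext ℚ),
    T.Nonempty → (∀ l ∈ T, l.Prime ∧ ∃ x, χ l x ≠ 1) → Redei p T χ → CutOut p T χ K →
      Module.finrank ℚ K = p ∧ IsGalois ℚ K ∧ KilledBy p 1 K ∧ TrivialAction p K

/-- Every `ρ g` is unipotent modulo the maximal ideal: some power of `ρ g - 1` has all entries in
the maximal ideal. -/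
def ResiduallyUnipotent {A : Type} [CommRing A] [IsLocalRing A]
    (ρ : Gal(AlgebraicClosure ℚ/ℚ) →* GL (Fin 2) A) : Prop :=
  ∀ g, ∃ M : ℕ, ∀ i j, (((ρ g : Matrix (Fin 2) (Fin 2) A) - 1) ^ M) i j ∈ maximalIdeal A

/-- The image of every inertia group under `ρ` has at most two elements. -/
def InertiaOrderTwo {A : Type} [CommRing A] (ρ : Gal(AlgebraicClosure ℚ/ℚ) →* GL (Fin 2) A) :
    Prop :=
  ∀ P : Ideal (𝓞 (AlgebraicClosure ℚ)), P.IsMaximal → ∀ σ τ : Gal(AlgebraicClosure ℚ/ℚ),
    InInertia P σ → InInertia P τ → ρ σ = 1 ∨ ρ τ = 1 ∨ ρ σ = ρ τ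

/-- The determinant of `ρ` is the quadratic character of the field generated by the square root
`r`: it is `1` on the elements that fix `r` and `-1` on the others. -/
def DetIsRootCharacter {A : Type} [CommRing A] (r : AlgebraicClosure ℚ)
    (ρ : Gal(AlgebraicClosure ℚ/ℚ) →* GL (Fin 2) A) : Prop :=
  ∀ g, (g r = r → (ρ g : Matrix (Fin 2) (Fin 2) A).det = 1) ∧
    (g r ≠ r → (ρ g : Matrix (Fin 2) (Fin 2) A).det = -1)

/-- Representations of rank two of the absolute Galois group of `ℚ`, for `p = 2`. -/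
def RankTwoOverRationals (A : Type) [CommRing A] [IsLocalRing A] [TopologicalSpace A] : Prop :=
  ∀ ρ : Gal(AlgebraicClosure ℚ/ℚ) →* GL (Fin 2) A, Continuous ρ → ResiduallyUnipotent ρ →
    InertiaOrderTwo ρ →
    ∃ (D : ℤ) (r : AlgebraicClosure ℚ), Squarefree D ∧ r ^ 2 = (D : AlgebraicClosure ℚ) ∧
      DetIsRootCharacter r ρ ∧ (FourRankZero D → ∀ g, ρ g * ρ g = 1)

/-- Examples. -/
def Examples : Prop :=
  Squarefree (-21945 : ℤ) ∧ FourRankZero (-21945) ∧ ∃ χ : ∀ l : ℕ, (ZMod l)ˣ →* Multiplicative (ZMod 3),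
    (∀ l ∈ ({7, 13, 19, 31, 37, 43, 61} : Finset ℕ), l.Prime ∧ ∃ x, χ l x ≠ 1) ∧
      Redei 3 {7, 13, 19, 31, 37, 43, 61} χ

theorem toD {F : Type} [Field F] [CharZero F] {p e : ℕ} {K : Ext F} [FiniteDimensional F K]
    (h1 : KilledBy p e K) (h2 : TrivialAction p K) :
    W5h3.FP.HD p e K.fixingSubgroup (W5h3.FM.Ig (F := F)) := by
  have := W5h3.FM.compact_sub K.fixingSubgroup (IntermediateField.fixingSubgroup_isOpen K)
  refine W5h3.FP.HD_of K.fixingSubgroup W5h3.FM.Ig ?_ ?_
  · intro E _ _ hE f hf hfI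
    exact h1 E hE f ⟨hf, fun P hP τ hτ => hfI ⟨P, hP⟩ τ hτ⟩
  · intro E _ _ f hfp hf hfI
    exact h2 E f hfp ⟨hf, fun P hP τ hτ => hfI ⟨P, hP⟩ τ hτ⟩

theorem ofD {F : Type} [Field F] {p e : ℕ} {K : Ext F}
    (h : W5h3.FP.HD p e K.fixingSubgroup (W5h3.FM.Ig (F := F))) :
    KilledBy p e K ∧ TrivialAction p K := by
  constructor
  · intro E _ _ hE f hf g
    exact (h E f hf.1 (fun x => hE (f x)) (fun x y => mul_comm _ _)
      (fun P x hx => hf.2 P.1 P.2 x hx)).1 g
  · intro E _ _ f hfp hf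
    exact (h E f hf.1 (fun x => ⟨1, by rw [pow_one]; exact hfp x⟩) (fun x y => mul_comm _ _)
      (fun P x hx => hf.2 P.1 P.2 x hx)).2 hfp

theorem toGP {F : Type} [Field F] [CharZero F] {p : ℕ} (h : ClassNumberPrimeTo p F) :
    W5h3.FP.GP p (W569.FM.GF F) (W5h3.FM.Ig (F := F)) := by
  have := W5h3.FM.compact_GF F
  refine W5h3.FP.GP_of W5h3.FM.Ig ?_
  intro E _ _ hE f hf hfI
  exact h E hE f hf fun P hP τ hτ => hfI ⟨P, hP⟩ τ hτ

theorem cg {A : Type} [CommRing A] {n p : ℕ} {M : Matrix (Fin n) (Fin n) A} :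
    W5h3.FP.Cg p 1 M ↔ ∀ i j, (p : A) ∣ M i j := by
  rw [W5h3.FP.cg_iff']
  simp only [pow_one]

theorem cm {F : Type} [Field F] {A : Type} [CommRing A] {n p : ℕ}
    {ρ : Gal(AlgebraicClosure F/F) →* GL (Fin n) A} {X : Matrix (Fin n) (Fin n) A} :
    W5h3.FP.Cm p ρ X ↔ CommutesModulo p ρ X :=
  forall_congr' fun _ => cg

theorem sqf : Squarefree (-21945 : ℤ) := by
  rw [← Int.squarefree_natAbs]
  have e : (-21945 : ℤ).natAbs = 3 * (5 * (7 * (11 * 19))) := by norm_num
  rw [e, Nat.squarefree_mul (by norm_num), Nat.squarefree_mul (by norm_num),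
    Nat.squarefree_mul (by norm_num), Nat.squarefree_mul (by norm_num)]
  exact ⟨(by norm_num : Nat.Prime 3).prime.squarefree, (by norm_num : Nat.Prime 5).prime.squarefree,
    (by norm_num : Nat.Prime 7).prime.squarefree, (by norm_num : Nat.Prime 11).prime.squarefree,
    (by norm_num : Nat.Prime 19).prime.squarefree⟩

/-- The theorem. -/
theorem result (p e n : ℕ) (hp : p.Prime) (he : 1 ≤ e) (F : Type) [Field F] [NumberField F]
    (A : Type) [CommRing A] [IsDomain A] [IsDiscreteValuationRing A] [CharZero A]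
    [TopologicalSpace A] (hA : IsAdic (maximalIdeal A))
    (hpA : maximalIdeal A = Ideal.span {(p : A)}) :
    AnyRank p e n F A ∧ RankTwo p e F A ∧ MainTheorem p e n F A ∧ Criteria p n F A ∧
      (p = 2 → QuadraticExtensions F) ∧ SquareZeroAction p e n F A ∧ (p = 3 → CubicExtensions e F A) ∧
      FullAction p e n F A ∧ ClassNumberPrimeTo p ℚ ∧ QuadraticFields ∧ CyclicFields p ∧
      Examples ∧ (p = 2 → RankTwoOverRationals A) := by
  have htor : ∀ a : A, (p : A) * a = 0 → a = 0 := fun a h =>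
    (mul_eq_zero.1 h).resolve_left (Nat.cast_ne_zero.2 hp.ne_zero)
  have hsep := W5h3.FP.sep_p hpA
  have hmax : (Ideal.span {(p : A)}).IsMaximal := hpA ▸ inferInstance
  have hart := W5h3.FP.art_p hpA
  have hA' : IsAdic (Ideal.span {(p : A)}) := by rw [← hpA]; exact hA
  refine ⟨?any, ?two, ?main, ⟨?crit1, ?crit3, ?crit2⟩, ?quad, ?sqz, ?cub, ⟨?full1, ?full2⟩, ?cnp, ?qf, ?cf,
    ⟨sqf, W5h3.FM.noC4_21945, ?ex⟩, ?q2⟩
  case any =>
    rintro hpe K ρ ⟨hfd, hgal, hKe, hρ, h1, hI⟩ hne
    have := W5h3.FM.compact_sub K.fixingSubgroup (IntermediateField.fixingSubgroup_isOpen K)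
    have hpe' : p ≠ 2 ∨ 2 ≤ e := by
      by_contra hcon
      push Not at hcon
      apply hpe
      have he1 : e = 1 := by omega
      rw [hcon.1, he1, pow_one]
    obtain ⟨f, hf, hfI, heq, hf1, hcl⟩ := W5h3.FP.any_rank_adj hp he hpe' hA' htor hsep
      K.fixingSubgroup inferInstance
      (W5h3.FP.HX_of K.fixingSubgroup W5h3.FM.Ig fun E _ _ hE f hf hfI =>
        hKe E hE f ⟨hf, fun P hP τ hτ => hfI ⟨P, hP⟩ τ hτ⟩) ρ hρ
      (fun g hg => W5h3.FP.cg_iff'.2 (h1 g hg)) (fun P g hg hgK => hI P.1 P.2 g hgK hg) hne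
    exact ⟨f, ⟨hf, fun P hP τ hτ => hfI ⟨P, hP⟩ τ hτ⟩, heq, hf1, hcl⟩
  case two =>
    rintro K ρ ⟨hfd, hgal, hKe, hρ, h1, hI⟩
    have := W5h3.FM.compact_sub K.fixingSubgroup (IntermediateField.fixingSubgroup_isOpen K)
    have hX : W5h3.FP.HX p e K.fixingSubgroup (W5h3.FM.Ig (F := F)) :=
      W5h3.FP.HX_of K.fixingSubgroup W5h3.FM.Ig fun E _ _ hE f hf hfI =>
        hKe E hE f ⟨hf, fun P hP τ hτ => hfI ⟨P, hP⟩ τ hτ⟩
    refine ⟨?_, ?_⟩
    · rintro rfl he2
      exact W5h3.FP.rank_two_two he2 hA' htor hsep K.fixingSubgroup inferInstance hX ρ hρ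
        (fun g hg => W5h3.FP.cg_iff'.2 (h1 g hg)) (fun P g hg hgK => (hI P.1 P.2 g hgK hg).2 rfl)
    · intro hp2 hne
      obtain ⟨f, hf, hfI, heq, hf1, hcl, htr, hsp⟩ := W5h3.FP.rank_two_adj hp he hp2 hmax hA' htor
        hsep K.fixingSubgroup inferInstance hX ρ hρ (fun g hg => W5h3.FP.cg_iff'.2 (h1 g hg))
        (fun P g hg hgK => (hI P.1 P.2 g hgK hg).1) hne
      exact ⟨f, ⟨⟨hf, fun P hP τ hτ => hfI ⟨P, hP⟩ τ hτ⟩, heq, hf1, hcl⟩, htr, hsp⟩
  case main =>
    rintro K ρ ⟨hfd, hgal, hK, hρ, h1, hI⟩ hT hmf hce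
    refine W5h3.FP.main_e hp he hA' htor hsep K.fixingSubgroup inferInstance
      (IntermediateField.fixingSubgroup_isOpen K) (toD hK hT) ρ hρ
      (fun g hg => W5h3.FP.cg_iff'.2 (h1 g hg)) (fun P g hg hgK => hI P.1 P.2 g hgK hg) ?_ ?_
    · intro X Y hX hY
      obtain ⟨m, hm⟩ := hmf X Y (cm.1 hX) (cm.1 hY)
      exact ⟨m, cg.2 hm⟩
    · intro h2 X Y hX hY hXX
      exact cg.2 (hce h2 X Y (cm.1 hX) (cm.1 hY) (cg.1 hXX))
  case crit1 =>
    rintro ρ (h | ⟨hfin, h⟩)
    · exact ⟨fun X Y hX hY => ⟨1, by rw [pow_one]; exact h X Y hX hY⟩,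
        fun X Y hX hY _ => h X Y hX hY⟩
    · obtain ⟨h1, h2⟩ := W5h3.FP.indec_mf (p := p) (ρ := ρ) (fun X hX hXX => by
        rcases h X (cm.1 hX) (cg.1 hXX) with h3 | h3
        · exact Or.inl (cg.2 h3)
        · exact Or.inr (cg.2 h3))
      refine ⟨fun X Y hX hY => ?_, fun X Y hX hY hXX => cg.1 (h2 X Y (cm.2 hX) (cm.2 hY)
        (cg.2 hXX))⟩
      obtain ⟨m, hm⟩ := h1 X Y (cm.2 hX) (cm.2 hY)
      exact ⟨m, cg.1 hm⟩
  case crit3 =>
    rintro ρ hfin ⟨m, E, hE, hid, hort, hsum, hprim, hniso⟩ X Y hX hY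
    obtain ⟨k, hk⟩ := W5h3.FP.mf_mat (p := p) (ρ := ρ) E (fun i => W5h3.FP.mem_Ct'.2 (hE i)) hid hort
      hsum (fun i X hX => hprim i X (W5h3.FP.mem_Ct'.1 hX))
      (fun i j hij X Y hX hY => hniso i j hij X Y (W5h3.FP.mem_Ct'.1 hX) (W5h3.FP.mem_Ct'.1 hY))
      X Y (cm.2 hX) (cm.2 hY)
    exact ⟨k, cg.1 hk⟩
  case crit2 =>
    rintro ρ ⟨s, hs⟩ X Y hX hY
    exact cg.1 (W5h3.FP.comm_two hmax (s := s) hs X Y (cm.2 hX) (cm.2 hY))
  case quad =>
    rintro rfl hF K hK E _ _ f hfp hf t x y hxy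
    have : FiniteDimensional F K := Module.finite_of_finrank_eq_succ hK
    have hidx : K.fixingSubgroup.index = 2 := by
      rw [← IntermediateField.finrank_eq_fixingSubgroup_index, hK]
    exact W5h3.FP.quad_inv K.fixingSubgroup hidx (IntermediateField.fixingSubgroup_isOpen K)
      W5h3.FM.Ig (toGP hF) (fun g P => ⟨W5h3.FM.cj g P, W5h3.FM.hconj g P⟩) E f hfp hf.1
      (fun P τ hτ => hf.2 P.1 P.2 τ hτ) t x y hxy
  case sqz =>
    rintro hn hp2 K ρ ⟨hfd, hgal, hKe, hρ, h1, hI⟩ s hU ⟨v, hv⟩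
    have := W5h3.FM.compact_sub K.fixingSubgroup (IntermediateField.fixingSubgroup_isOpen K)
    exact W5h3.FP.main_cyc hp he hp2 hn hmax hA' htor hsep K.fixingSubgroup inferInstance
      (W5h3.FP.HX_of K.fixingSubgroup W5h3.FM.Ig fun E _ _ hE f hf hfI =>
        hKe E hE f ⟨hf, fun P hP τ hτ => hfI ⟨P, hP⟩ τ hτ⟩) ρ hρ
      (fun g hg => W5h3.FP.cg_iff'.2 (h1 g hg)) (fun P g hg hgK => hI P.1 P.2 g hgK hg)
      (W5h3.FP.HU_of K.fixingSubgroup W5h3.FM.Ig fun E _ _ f hfp hf hfI =>
        hU E f hfp ⟨hf, fun P hP τ hτ => hfI ⟨P, hP⟩ τ hτ⟩) hv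
  case cub =>
    rintro rfl hF K hK hgal
    have : FiniteDimensional F K := Module.finite_of_finrank_eq_succ hK
    have hidx : K.fixingSubgroup.index = 3 := by
      rw [← IntermediateField.finrank_eq_fixingSubgroup_index, hK]
    have hcub := W5h3.FP.cubic_HU K.fixingSubgroup inferInstance hidx
      (IntermediateField.fixingSubgroup_isOpen K) W5h3.FM.Ig (toGP hF)
      (fun g P => ⟨W5h3.FM.cj g P, W5h3.FM.hconj g P⟩)
    refine ⟨fun s E _ _ f hfp hf x y z hy hz => hcub s E f hfp hf.1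
      (fun P τ hτ => hf.2 P.1 P.2 τ hτ) x y z hy hz, ?_⟩
    rintro ρ ⟨hfd, -, hKe, hρ, h1, hI⟩
    have := W5h3.FM.compact_sub K.fixingSubgroup (IntermediateField.fixingSubgroup_isOpen K)
    by_cases hsc : ∀ s, ScalarModulo 3 (ρ s : Matrix (Fin 2) (Fin 2) A)
    · intro g _
      exact W5h3.FP.cubic_all he hmax hA' htor hsep K.fixingSubgroup inferInstance hidx (toGP hF)
        ρ hρ (fun g hg => W5h3.FP.cg_iff'.2 (h1 g hg))
        (fun P g hg hgK => (hI P.1 P.2 g hgK hg).1) hsc g
    · push Not at hsc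
      obtain ⟨s, hs⟩ := hsc
      obtain ⟨v, hv⟩ := W5h3.FP.cyclic_two (S := (ρ s).1) (by
        rw [hpA]
        simp only [Ideal.mem_span_singleton]
        exact hs)
      exact W5h3.FP.main_cyc hp he (by norm_num) (by norm_num) hmax hA' htor hsep
        K.fixingSubgroup inferInstance
        (W5h3.FP.HX_of K.fixingSubgroup W5h3.FM.Ig fun E _ _ hE f hf hfI =>
          hKe E hE f ⟨hf, fun P hP τ hτ => hfI ⟨P, hP⟩ τ hτ⟩) ρ hρ
        (fun g hg => W5h3.FP.cg_iff'.2 (h1 g hg)) (fun P g hg hgK => hI P.1 P.2 g hgK hg)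
        (W5h3.FP.HU_of K.fixingSubgroup W5h3.FM.Ig fun E _ _ f hfp hf hfI x y z hy hz =>
          hcub s E f hfp hf hfI x y z hy hz) hv
  case full1 =>
    rintro K ρ hfd hgal hKe hρ h1 hI hT ⟨s, v, hv⟩
    have := W5h3.FM.compact_sub K.fixingSubgroup (IntermediateField.fixingSubgroup_isOpen K)
    exact W5h3.FP.main_full (e := e) hp hA' htor hsep K.fixingSubgroup inferInstance
      (W5h3.FP.HT_of K.fixingSubgroup W5h3.FM.Ig fun E _ _ hE f hf hfI =>
        hT E hE f ⟨hf, fun P hP τ hτ => hfI ⟨P, hP⟩ τ hτ⟩)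
      (W5h3.FP.HX_of K.fixingSubgroup W5h3.FM.Ig fun E _ _ hE f hf hfI =>
        hKe E hE f ⟨hf, fun P hP τ hτ => hfI ⟨P, hP⟩ τ hτ⟩) ρ hρ
      (fun g hg => W5h3.FP.cg_iff'.2 (h1 g hg)) (fun P g hg hgK => hI P.1 P.2 g hgK hg) hv
  case full2 =>
    rintro ρ s hs
    obtain ⟨v, hv⟩ := W5h3.FP.cyclic_two (S := (ρ s).1) (by
      rw [hpA]
      simp only [Ideal.mem_span_singleton]
      exact hs)
    exact ⟨v, hv⟩
  case cnp =>
    intro E _ _ hE f hf hfI
    exact W5h3.FM.gen_Q E f hf fun P τ hτ => hfI P.1 P.2 τ hτ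
  case qf =>
    intro D r K hD hC4 hr hK
    exact ofD (W5h3.FP.quad_HC hD hC4 hr K.fixingSubgroup hK).toHD
  case cf =>
    intro T χ K hT hχ hR hcut
    obtain ⟨ho, hn, hidx, hC⟩ := W5h3.FP.cyc_HC hp (fun l hl => (hχ l hl).1) hT χ
      (fun l hl => (hχ l hl).2) hR K.fixingSubgroup hcut
    refine ⟨?_, ?_, ofD hC.toHD⟩
    · rw [IntermediateField.finrank_eq_fixingSubgroup_index, hidx]
    · exact (InfiniteGalois.normal_iff_isGalois K).1 hn
  case ex =>
    obtain ⟨χ, hχ⟩ := W5h3.FP.exists_chi7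
    refine ⟨χ, fun l hl => ⟨W5h3.FP.T7_prime hl, ?_⟩, W5h3.FP.redei7 χ hχ⟩
    by_contra hcon
    push Not at hcon
    have h1 := hχ l hl
    unfold W5h3.FP.vl at h1
    by_cases hc : (W5h3.FP.g7 l).Coprime l
    · rw [dif_pos hc, hcon] at h1
      exact absurd h1 (by decide)
    · rw [dif_neg hc] at h1
      exact absurd h1 (by decide)
  case q2 =>
    intro hp2 ρ hρ hres hI
    have h2 : maximalIdeal A = Ideal.span {2} := by
      rw [hpA, hp2]
      norm_num
    have hI' : W5h3.FM.Ord2 ρ := fun P σ hσ τ hτ => hI P.1 P.2 σ τ hσ hτ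
    obtain ⟨D, hD, r, hr, hdet, -⟩ := W5h3.FM.exists_D h2 hA ρ hρ hI'
    exact ⟨D, r, hD, hr, hdet, fun hC4 =>
      (W5h3.FM.main_Q2 h2 hA ρ hρ hres hI' hD hr hdet hC4).2⟩


end Pool.Agent.Results.MP_ca71b5_nt.MultiplicityFree
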