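import Pool.Agent.W5h37.PW.Rat
import Pool.Agent.W5h37.PW.Rep
import Pool.Agent.W5h37.PW.Fin
import Pool.Agent.W5h37.PW.Dens

/-!
# Unramified extensions of number fields in towers with powerful Galois groups

Let `p` be an odd prime, `F` a number field and `T` a finite set of finite primes of `F`, which may contain primes above
`p`. Let `G` be the Galois group of the maximal `p`-extension of `F` unramified outside `T`. Suppose that an alternating
bilinear form on the maximal elementary abelian quotient of `G` which vanishes on (inertia group) × (decomposition group)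
for all primes in `T` that do not lie above `p` is zero (in terms of cohomology: the map from the exterior square of
`H¹(G, 𝔽_p)` to the sum of the groups `H²(F_q, 𝔽_p)`, `q ∈ T` not above `p`, is injective). Then all number fields `K`
between `F` and a finite Galois `p`-extension `L` unramified outside `T` have a finite `p`-class field tower, and all their
continuous everywhere unramified `p`-adic representations, of any dimension, which factor through a pro-`p` group, have
finite image. More precisely, let `p ^ e` kill the `p`-part of the class group of `F`. A finite quotient of `G` in which the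
images of the inertia groups at the primes in `T` have orders with product `x` has at most `p ^ e * x ^ 2` elements, and at
most `x` elements if `e = 0`; the same expressions, with the product `x` of the ramification indices of the primes in `T` in
`L`, bound the degree over `F` of the `p`-class field tower of `K`.

For `F = ℚ` the condition holds for sets of primes with at most three members congruent to `1` modulo `p`, for most pairs
and triples of such primes (nested lower densities `1 - 1/p` and `(1 - 1/p)²`), and if `p` is in the set, for one such prime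
which is not congruent to `1` modulo `p²`.

The group theory: the condition forces all commutators in a finite quotient `E` of `G` to be products of `p`-th powers (`E`
is powerful), and a powerful group generated by subgroups `I_q` has at most `∏ |I_q|` elements. The condition also implies
that the `p`-part of the class group of `F` is cyclic; for `e > 0` one uses that the elements of a powerful group whose
orders divide `p ^ m` form a subgroup (Wilson). The files `Chain`, `Chain2` and `Rep` of the directory
`Pool/Agent/W5h37/PW` are by helper2, the file `Tors` is by helper70.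
-/

set_option autoImplicit false
set_option maxHeartbeats 1000000

open NumberField IsLocalRing

namespace Pool.Agent.Results.MP_ca71b5_nt.PowerfulTowers

open Pool.Agent.W5h37.PW (Nested)

section
variable {F : Type} [Field F]

/-- The inertia group at the ideal `P` of the ring of all algebraic integers in the absolute Galois group of `F`. -/
noncomputable def Inertia (P : Ideal (𝓞 (AlgebraicClosure F))) : Subgroup Gal(AlgebraicClosure F/F) where
  carrier := {τ | ∀ x : 𝓞 (AlgebraicClosure F), τ • x - x ∈ P}
  one_mem' := (Pool.Agent.W327.FM.iner P).one_mem'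
  mul_mem' := (Pool.Agent.W327.FM.iner P).mul_mem'
  inv_mem' := (Pool.Agent.W327.FM.iner P).inv_mem'

/-- The prime of `F` below `P`. -/
noncomputable def below (P : Ideal (𝓞 (AlgebraicClosure F))) : Ideal (𝓞 F) := P.comap (algebraMap (𝓞 F) (𝓞 (AlgebraicClosure F)))

/-- The homomorphism `f` from the absolute Galois group of `F` is unramified at the finite primes of `F` not in `T`. -/
def UnramifiedOutside (T : Set (Ideal (𝓞 F))) {E : Type} [Group E] (f : Gal(AlgebraicClosure F/F) →* E) : Prop :=
  ∀ P : Ideal (𝓞 (AlgebraicClosure F)), P.IsMaximal → below P ∉ T → ∀ τ ∈ Inertia P, f τ = 1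

/-- The homomorphism `f` from the absolute Galois group of `K` is unramified at all finite primes. -/
def Unramified {K : IntermediateField F (AlgebraicClosure F)} {E : Type} [Group E] (f : K.fixingSubgroup →* E) : Prop :=
  ∀ P : Ideal (𝓞 (AlgebraicClosure F)), P.IsMaximal → ∀ τ : K.fixingSubgroup,
    (τ : Gal(AlgebraicClosure F/F)) ∈ Inertia P → f τ = 1

/-- `p ^ e` kills the Galois groups of all finite abelian extensions of `F` of `p`-power degree which are unramified at all
finite primes (by class field theory, the `p`-part of the class group of `F`; such an `e` exists for every number field). -/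
def ClassExponent (p e : ℕ) (F : Type) [Field F] : Prop :=
  ∀ (E : Type) [CommGroup E] [Finite E], IsPGroup p E → ∀ f : Gal(AlgebraicClosure F/F) →* E,
    IsOpen (f.ker : Set Gal(AlgebraicClosure F/F)) → UnramifiedOutside ∅ f → ∀ g, f g ^ p ^ e = 1

/-- `ω` is a continuous alternating bilinear form with values in `𝔽_p` on the Galois group of the maximal extension of `F`
unramified outside `T` (that is, on its maximal elementary abelian `p`-quotient). -/
structure IsForm (p : ℕ) (T : Set (Ideal (𝓞 F)))
    (ω : Gal(AlgebraicClosure F/F) → Gal(AlgebraicClosure F/F) → ZMod p) : Prop where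
  add_left : ∀ x y z, ω (x * y) z = ω x z + ω y z
  add_right : ∀ x y z, ω x (y * z) = ω x y + ω x z
  alternating : ∀ x, ω x x = 0
  continuous : ∃ N : Subgroup Gal(AlgebraicClosure F/F), IsOpen (N : Set Gal(AlgebraicClosure F/F)) ∧
    ∀ n ∈ N, ∀ x, ω n x = 0
  unramified : ∀ P : Ideal (𝓞 (AlgebraicClosure F)), P.IsMaximal → below P ∉ T → ∀ τ ∈ Inertia P, ∀ x, ω τ x = 0

/-- The only form `ω` as in `IsForm` with `ω τ σ = 0` for all `τ` in the inertia group and all `σ` in the decomposition group
of a prime in `T` which does not lie above `p` is zero. -/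
def Rigid (p : ℕ) (T : Set (Ideal (𝓞 F))) : Prop :=
  ∀ ω : Gal(AlgebraicClosure F/F) → Gal(AlgebraicClosure F/F) → ZMod p, IsForm p T ω →
    (∀ P : Ideal (𝓞 (AlgebraicClosure F)), P.IsMaximal → below P ∈ T → (p : 𝓞 (AlgebraicClosure F)) ∉ P →
      ∀ τ ∈ Inertia P, ∀ σ : Gal(AlgebraicClosure F/F), (∀ x ∈ P, σ • x ∈ P) → ω τ σ = 0) →
    ∀ x y, ω x y = 0

/-- Every `ρ g` is unipotent modulo the maximal ideal: some power of `ρ g - 1` has all entries in the maximal ideal. -/
def ResiduallyUnipotent {G : Type} [Group G] {A : Type} [CommRing A] [IsLocalRing A] {n : ℕ} (ρ : G →* GL (Fin n) A) :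
    Prop :=
  ∀ g, ∃ M : ℕ, ∀ i j, (((ρ g : Matrix (Fin n) (Fin n) A) - 1) ^ M) i j ∈ maximalIdeal A

/-- The ramification index in `L / F` of the prime of `F` below `P`: the index of the inertia group at `P` in the absolute
Galois group of `L` in the inertia group at `P` in the absolute Galois group of `F`. -/
noncomputable def ramIdx (L : IntermediateField F (AlgebraicClosure F)) (P : Ideal (𝓞 (AlgebraicClosure F))) : ℕ :=
  L.fixingSubgroup.relIndex (Inertia P)

/-- `L / F` is a finite Galois extension of `p`-power degree, unramified at the finite primes not in `T`. -/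
def IsPExtension (p : ℕ) (T : Set (Ideal (𝓞 F))) (L : IntermediateField F (AlgebraicClosure F)) : Prop :=
  IsGalois F L ∧ (∃ k : ℕ, Module.finrank F L = p ^ k) ∧
    ∀ P : Ideal (𝓞 (AlgebraicClosure F)), P.IsMaximal → below P ∉ T → ∀ τ ∈ Inertia P, τ ∈ L.fixingSubgroup

/-- The conclusion for the set `T`, with the bound `b`. Let `P q` be a maximal ideal above `q`, for `q ∈ T`.
(1) The image of every homomorphism `f` with open kernel from the absolute Galois group of `F` to a finite `p`-group which
is unramified outside `T` has at most `b (∏ |f (I_q)|)` elements, where `I_q` is the inertia group at `P q`.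
(2) The same for continuous residually unipotent representations over Noetherian local rings `A` with finite residue
fields of characteristic `p` (with the topology given by the maximal ideal) if the groups `ρ (I_q)` are finite.
(3) For every `L` as in `IsPExtension` and every field `K` between `F` and `L`, all everywhere unramified homomorphisms with
open kernel from the absolute Galois group of `K` to finite `p`-groups and all continuous, everywhere unramified and residually
unipotent representations of this group over rings `A` as in (2) have finite images of order at most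
`b (∏ e_q) / [K : F]`, where `e_q` is the ramification index of `q` in `L / F`. -/
def Bounded (p : ℕ) (b : ℕ → ℕ) (T : Finset (Ideal (𝓞 F))) : Prop :=
  ∀ P : Ideal (𝓞 F) → Ideal (𝓞 (AlgebraicClosure F)), (∀ q ∈ T, (P q).IsMaximal ∧ below (P q) = q) →
    (∀ (E : Type) [Group E] [Finite E], IsPGroup p E → ∀ f : Gal(AlgebraicClosure F/F) →* E,
      IsOpen (f.ker : Set Gal(AlgebraicClosure F/F)) → UnramifiedOutside T f →
      Nat.card f.range ≤ b (∏ q ∈ T, Nat.card ((Inertia (P q)).map f))) ∧
    (∀ (A : Type) [CommRing A] [IsLocalRing A] [IsNoetherianRing A] [TopologicalSpace A], IsAdic (maximalIdeal A) →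
      Finite (ResidueField A) → (p : A) ∈ maximalIdeal A → ∀ (n : ℕ) (ρ : Gal(AlgebraicClosure F/F) →* GL (Fin n) A),
      Continuous ρ → ResiduallyUnipotent ρ → UnramifiedOutside T ρ → (∀ q ∈ T, Finite ((Inertia (P q)).map ρ)) →
      Finite ρ.range ∧ Nat.card ρ.range ≤ b (∏ q ∈ T, Nat.card ((Inertia (P q)).map ρ))) ∧
    ∀ L : IntermediateField F (AlgebraicClosure F), IsPExtension p T L →
      ∀ K : IntermediateField F (AlgebraicClosure F), K ≤ L →
      (∀ (E : Type) [Group E] [Finite E], IsPGroup p E → ∀ f : K.fixingSubgroup →* E,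
        IsOpen (f.ker : Set K.fixingSubgroup) → Unramified f →
        Module.finrank F K * Nat.card f.range ≤ b (∏ q ∈ T, ramIdx L (P q))) ∧
      ∀ (A : Type) [CommRing A] [IsLocalRing A] [IsNoetherianRing A] [TopologicalSpace A], IsAdic (maximalIdeal A) →
        Finite (ResidueField A) → (p : A) ∈ maximalIdeal A → ∀ (n : ℕ) (ρ : K.fixingSubgroup →* GL (Fin n) A),
        Continuous ρ → ResiduallyUnipotent ρ → Unramified ρ →
        Finite ρ.range ∧ Module.finrank F K * Nat.card ρ.range ≤ b (∏ q ∈ T, ramIdx L (P q))

end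

open Classical in
/-- `Bounded` holds with the bound `b x = x` for all finite sets `S` of prime numbers whose members congruent to `1` modulo `p` are in `T`, with `p ∉ S`
unless `Wild` holds (a prime number `l` is identified with the ideal generated by `l` in the ring of integers of `ℚ`). -/
def AlwaysBounded (p : ℕ) (Wild : Prop) (T : Set ℕ) : Prop :=
  ∀ S : Finset ℕ, (∀ l ∈ S, l.Prime) → (∀ l ∈ S, p ∣ l - 1 → l ∈ T) → (p ∈ S → Wild) →
    Bounded p (fun x => x) (S.image fun l : ℕ => Ideal.span {(l : 𝓞 ℚ)})

/-! ### Translation -/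

section
variable {F : Type} [Field F] [NumberField F] {p : ℕ} [hp : Fact p.Prime]

theorem main {T : Finset (Ideal (𝓞 F))} {b : ℕ → ℕ} (hb : Monotone b)
    (hc : Pool.Agent.W5h37.PW.HasBound p T b) : Bounded p b T := by
  intro P hP
  refine ⟨fun E _ _ hE f hf hfT => hc P hP E hE f hf hfT, ?_, ?_⟩
  · intro A _ _ _ _ hA hfin hpA n ρ hρ hres hur hI
    refine Pool.Agent.W5h37.PW.rep_finite hp.out hA hfin hpA ρ hρ hres _ fun E _ _ hE φ hφ hφρ => ?_
    refine (hc P hP E hE φ hφ fun Q hQ hQT τ hτ => hφρ τ (hur Q hQ hQT τ hτ)).trans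
      (hb (Finset.prod_le_prod' fun q hq => ?_))
    have h1 : ρ.ker ≤ φ.ker := fun g hg => hφρ g hg
    show Nat.card ((Inertia (P q)).map φ) ≤ _
    rw [← Subgroup.relIndex_ker, ← Subgroup.relIndex_ker]
    refine Nat.le_of_dvd ?_ (Subgroup.relIndex_dvd_of_le_left _ h1)
    rw [Subgroup.relIndex_ker]
    have := hI q hq
    exact Nat.card_pos
  · rintro L ⟨hLg, ⟨k, hk⟩, hLT⟩ K hKL
    have hfd : FiniteDimensional F L := by
      apply FiniteDimensional.of_finrank_pos
      rw [hk]
      exact pow_pos hp.out.pos k
    have hLo : IsOpen (L.fixingSubgroup : Set Gal(AlgebraicClosure F/F)) := IntermediateField.fixingSubgroup_isOpen L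
    have hLn : L.fixingSubgroup.Normal := by
      rw [← IntermediateField.restrictNormalHom_ker]
      infer_instance
    have hLK : L.fixingSubgroup ≤ K.fixingSubgroup := IntermediateField.fixingSubgroup_le hKL
    have hLp : ∀ g : Gal(AlgebraicClosure F/F), ∃ k : ℕ, g ^ p ^ k ∈ L.fixingSubgroup := by
      intro g
      refine ⟨k, ?_⟩
      rw [← IntermediateField.restrictNormalHom_ker, MonoidHom.mem_ker, map_pow, ← hk, ← IsGalois.card_aut_eq_finrank]
      exact pow_card_eq_one'
    have hK : Module.finrank F K = K.fixingSubgroup.index := IntermediateField.finrank_eq_fixingSubgroup_index _ K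
    have key : ∀ (E : Type) [Group E] [Finite E], IsPGroup p E → ∀ f : K.fixingSubgroup →* E,
        IsOpen (f.ker : Set K.fixingSubgroup) → Unramified f →
        Module.finrank F K * Nat.card f.range ≤ b (∏ q ∈ T, ramIdx L (P q)) := by
      intro E _ _ hE f hf hur
      rw [hK]
      exact hc.tower hb P hP K.fixingSubgroup L.fixingSubgroup hLK hLo hLp hLT hE f hf hur
    refine ⟨key, ?_⟩
    intro A _ _ _ _ hA hfin hpA n ρ hρ hres hur
    have hKpos : 0 < Module.finrank F K := by
      have hKf := Pool.Agent.W5h37.PW.finIdx (Subgroup.isOpen_mono hLK hLo)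
      rw [hK]
      exact Nat.pos_of_ne_zero hKf.index_ne_zero
    obtain ⟨h1, h2⟩ := Pool.Agent.W5h37.PW.rep_finite hp.out hA hfin hpA ρ hρ hres
      (b (∏ q ∈ T, ramIdx L (P q)) / Module.finrank F K) fun E _ _ hE φ hφ hφρ => by
        rw [Nat.le_div_iff_mul_le hKpos, mul_comm]
        exact key E hE φ hφ fun Q hQ τ hτ => hφρ τ (hur Q hQ τ hτ)
    refine ⟨h1, ?_⟩
    rw [Nat.le_div_iff_mul_le hKpos, mul_comm] at h2
    exact h2

theorem rigid_iff {T : Finset (Ideal (𝓞 F))} (hB : Rigid p (T : Set (Ideal (𝓞 F)))) :
    Pool.Agent.W5h37.PW.Rigid p (T : Set (Ideal (𝓞 F))) := fun ω hω hl =>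
  hB ω ⟨hω.add_left, hω.add_right, hω.alt, hω.cont, fun P hP h τ hτ x => hω.ur P hP h τ hτ x⟩
    fun P hP hPT hpP τ hτ σ hσ => hl P hP hPT hpP τ hτ σ hσ

end

section
variable {p : ℕ} [hp : Fact p.Prime]

theorem ne_p {q : ℕ} (hq : q.Prime) (h : p ∣ q - 1) : q ≠ p := by
  rintro rfl
  have h2 := hq.two_le
  have := Nat.le_of_dvd (by omega) h
  omega

theorem always (hp2 : p ≠ 2) {χ : ∀ j : ℕ, (ZMod j)ˣ →* Multiplicative (ZMod p)} (hχ : Pool.Agent.Q202.RT.Kr χ)
    {Wild : Prop} {T : Set ℕ} (U : Finset ℕ) (hTU : T ⊆ U) (hW : Wild → p ∈ U)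
    (h : Pool.Agent.W5h37.PW.Rig p U (Pool.Agent.W5h37.PW.lab χ)) : AlwaysBounded p Wild T := by
  intro S hS hST hSW
  refine main monotone_id ?_
  have h1 := Pool.Agent.W5h37.PW.crit_rat hp2 S hS χ (fun l hl hpl => (hχ l (hS l hl) hpl).1) (h.mono fun l hl => ?_)
  · convert h1.hasBound hp2
    rfl
  · obtain ⟨h1, h2⟩ := Finset.mem_filter.1 hl
    rcases h2 with h2 | rfl
    · exact hTU (hST l h1 h2)
    · exact hW (hSW h1)

theorem lab_of {χ : ∀ j : ℕ, (ZMod j)ˣ →* Multiplicative (ZMod p)} {i j : ℕ} (h : j ≠ p) :
    Pool.Agent.W5h37.PW.lab χ i j = Pool.Agent.W569.TG.lk χ i j := if_neg h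

end

/-- **Everywhere unramified extensions in towers with powerful Galois groups.** -/
theorem result (p : ℕ) [Fact p.Prime] (hp2 : p ≠ 2) :
    (∀ (F : Type) [Field F] [NumberField F] (T : Finset (Ideal (𝓞 F))) (e : ℕ), ClassExponent p e F →
      Rigid p (T : Set (Ideal (𝓞 F))) →
      Bounded p (fun x => p ^ e * x ^ 2) T ∧ (e = 0 → Bounded p (fun x => x) T)) ∧
    (∀ q₁ : ℕ, q₁.Prime → p ∣ q₁ - 1 →
      Nested p (AlwaysBounded p False) [1 - 1 / p] {q₁} ∧
      Nested p (AlwaysBounded p False) [1 - 1 / p, (1 - 1 / p) ^ 2] {q₁}) ∧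
    ∀ q : ℕ, q.Prime → p ∣ q - 1 → ¬ p ^ 2 ∣ q - 1 → AlwaysBounded p True {q} := by
  have hp : p.Prime := Fact.out
  obtain ⟨χ, hχ⟩ := Pool.Agent.TH146.FM.exists_chi p
  refine ⟨fun F _ _ T e he hB => ⟨main (fun x y h => Nat.mul_le_mul_left _ (Nat.pow_le_pow_left h 2))
    (Pool.Agent.W5h37.PW.hasBound_gen hp2 (rigid_iff hB) e fun E _ _ hE f hf hfu =>
      he E hE f hf fun P hP _ τ hτ => hfu P hP τ hτ), fun he0 => main monotone_id
        (Pool.Agent.W5h37.PW.Crit.hasBound hp2 ⟨fun χ h1 h2 g => ?_, rigid_iff hB⟩)⟩,
    fun a hap hpa => ⟨?_, ?_⟩, fun q hq hpq hpq2 => ?_⟩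
  · have : NeZero p := ⟨hp.ne_zero⟩
    have h3 := he (Multiplicative (ZMod p)) (IsPGroup.iff_card.2 ⟨1, by
      rw [pow_one]
      exact (Nat.card_congr Multiplicative.toAdd).trans (Nat.card_zmod p)⟩) χ h1 (fun P hP _ τ hτ => h2 P hP τ hτ) g
    rwa [he0, pow_zero, pow_one] at h3
  · refine Pool.Agent.W5h37.PW.nest2 hp2 hχ ⟨hap, hpa⟩ fun b hb hab h => ?_
    refine always hp2 hχ {a, b} ?_ (fun h => h.elim) (Pool.Agent.W5h37.PW.rig2 hab (ne_p hap hpa) ?_)
    · intro x hx
      simp only [Set.mem_insert_iff, Set.mem_singleton_iff] at hx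
      simp only [Finset.coe_insert, Finset.coe_singleton, Set.mem_insert_iff, Set.mem_singleton_iff]
      tauto
    · rw [lab_of (ne_p hb.1 hb.2)]
      exact h
  · refine Pool.Agent.W5h37.PW.nest2 hp2 hχ ⟨hap, hpa⟩ fun b hb hab h => ?_
    refine Pool.Agent.W5h37.PW.nest3 hp2 hχ ⟨hap, hpa⟩ hb hab h fun c hc hac hbc hY => ?_
    refine always hp2 hχ {a, b, c} ?_ (fun h => h.elim) (Pool.Agent.W5h37.PW.rig3 hab hac hbc (ne_p hap hpa)
      (ne_p hb.1 hb.2) (ne_p hc.1 hc.2) ?_)
    · intro x hx
      simp only [Set.mem_insert_iff, Set.mem_singleton_iff] at hx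
      simp only [Finset.coe_insert, Finset.coe_singleton, Set.mem_insert_iff, Set.mem_singleton_iff]
      tauto
    · have h1 := ne_p hap hpa
      have h2 := ne_p hb.1 hb.2
      have h3 := ne_p hc.1 hc.2
      rw [lab_of h2, lab_of h3, lab_of h1, lab_of h1, lab_of h2, lab_of h3]
      exact hY
  · refine always hp2 hχ {q, p} ?_ (fun _ => by simp) (Pool.Agent.W5h37.PW.rig2 (ne_p hq hpq) (ne_p hq hpq) ?_)
    · intro x hx
      simp only [Set.mem_singleton_iff] at hx
      simp [hx]
    · rw [Pool.Agent.W5h37.PW.lab, if_pos rfl]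
      intro h
      rw [ZMod.natCast_eq_zero_iff] at h
      apply hpq2
      obtain ⟨m, hm⟩ := h
      refine ⟨m, ?_⟩
      rw [← Nat.div_mul_cancel hpq, hm]
      ring

end Pool.Agent.Results.MP_ca71b5_nt.PowerfulTowers
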