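import Pool.Agent.W5h26.UF.Cnt
import Pool.Agent.Q202.QT.DensN
import Pool.Agent.Q202.QT.Ker
import Pool.Agent.Results.MP_ca71b5_nt.RankTwoExtensions

/-!
# Everywhere unramified representations of rank two: most pairs and triples, half of the quadruples of primes

Let `p` be an odd prime. The starting result `RankTwoExtensions` gives a condition on the linking numbers of the primes
congruent to `1` modulo `p` in a finite set `S` under which every continuous, residually unipotent `ρ : Gal(ℚbar/ℚ) → GL_2(A)`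
which is everywhere unramified over some number field unramified outside `S` has finite image. For two and three such primes (where
`p` counts as one of them if it is in `S`) it holds for most pairs and triples, and for four primes and residue fields of odd
degree over the field with `p` elements for about half of the quadruples.
-/

set_option autoImplicit false
set_option maxHeartbeats 1000000

open NumberField Matrix IsLocalRing Finset Filter

namespace Pool.Agent.Results.MP_ca71b5_nt.RankTwoMostPrimes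

open Pool.Agent.Results.MP_ca71b5_nt.RankTwoExtensions (FieldUnramifiedOutside UnramifiedOver
  ResiduallyUnipotent Tame linking NoPlane)
open Pool.Agent.Q202.RT Pool.Agent.Q202.QT
open Pool.Agent.W569.TG (lk)
open Pool.Agent.W5h26.UF

/-- For all finite sets `S` of primes whose members congruent to `1` modulo `p` are in `T` (and `p ∉ S` unless `Wild` holds), for all
number fields `K` which are unramified outside `S`, for all discrete valuation rings `A` of characteristic `0` with finite residue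
field of characteristic `p` (of odd degree over the field with `p` elements if `OddDegree` holds), with the adic topology, every continuous
`ρ : Gal(ℚbar/ℚ) → GL_2(A)`, residually unipotent, whose restriction to the absolute Galois group of `K` is unramified at all finite
primes, has finite image. -/
def AlwaysFinite (p : ℕ) (Wild OddDegree : Prop) (T : Set ℕ) : Prop :=
  ∀ S : Finset ℕ, (∀ l ∈ S, l.Prime) → (∀ l ∈ S, p ∣ l - 1 → l ∈ T) → (p ∈ S → Wild) →
  ∀ (K : IntermediateField ℚ (AlgebraicClosure ℚ)) [FiniteDimensional ℚ K], FieldUnramifiedOutside S K →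
  ∀ (A : Type) [CommRing A] [IsDomain A] [IsDiscreteValuationRing A] [CharZero A] [TopologicalSpace A],
    IsAdic (maximalIdeal A) → Finite (ResidueField A) → (p : A) ∈ maximalIdeal A → (OddDegree → ∃ d, Odd d ∧ Nat.card (ResidueField A) = p ^ d) →
  ∀ ρ : Gal(AlgebraicClosure ℚ/ℚ) →* GL (Fin 2) A, Continuous ρ → UnramifiedOver K ρ → ResiduallyUnipotent ρ →
    (Set.range ρ).Finite

open Classical in
/-- The primes `q ≤ x` with `p ∣ q - 1`. -/
noncomputable def Pr (p x : ℕ) : Finset ℕ := (range (x + 1)).filter fun q => q.Prime ∧ p ∣ q - 1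

open Classical in
/-- `Nested p R [s₁, …, s_k] T`: for a proportion of at least `s₁` of the primes `q₁ ≡ 1 mod p`, for a proportion of at least `s₂`
of the primes `q₂ ≡ 1 mod p`, …, for a proportion of at least `s_k` of the primes `q_k ≡ 1 mod p`, the set
`T ∪ {q₁, …, q_k}` has the property `R` (and the `q_i` are distinct and not in `T`). -/
def Nested (p : ℕ) (R : Set ℕ → Prop) : List ℝ → Set ℕ → Prop
  | [], T => R T
  | s :: L, T => ∀ ε : ℝ, 0 < ε → ∀ᶠ x : ℕ in atTop, (s - ε) * ((Pr p x).card : ℝ) ≤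
      (((Pr p x).filter fun q => q ∉ T ∧ Nested p R L (insert q T)).card : ℝ)

theorem Pr_eq (p x : ℕ) [Fact p.Prime] : Pr p x = P1 p x := by
  ext l
  rw [mem_P1, Pr, mem_filter, mem_range]
  constructor
  · rintro ⟨h1, h2, h3⟩
    exact ⟨by omega, h2, h3⟩
  · rintro ⟨h1, h2, h3⟩
    exact ⟨by omega, h2, h3⟩

section
variable {p : ℕ} [Fact p.Prime]

theorem linking_lk {K : Type} [Field K] [CharP K p] (χ : ∀ j : ℕ, (ZMod j)ˣ →* Multiplicative (ZMod p)) (j q : ℕ) :
    linking K j q (χ j) = ZMod.castHom (dvd_refl p) K (lk χ q j) := by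
  have : NeZero p := ⟨(Fact.out : p.Prime).ne_zero⟩
  unfold linking lk
  split_ifs with h
  · rw [ZMod.castHom_apply, ZMod.natCast_val]
  · rw [map_zero]

/-- the linking numbers of the primes `≡ 1` modulo `p` and of `p` -/
noncomputable def lab (χ : ∀ j : ℕ, (ZMod j)ˣ →* Multiplicative (ZMod p)) (i j : ℕ) : ZMod p :=
  if j = p then lv p i else lk χ i j

/-- the criterion -/
theorem crit (hp2 : p ≠ 2) {χ : ∀ j : ℕ, (ZMod j)ˣ →* Multiplicative (ZMod p)} (hχ : Kr χ) {Wild OddDegree : Prop} {T : Set ℕ}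
    (U : Finset ℕ) (hTU : T ⊆ U) (hW : Wild → p ∈ U)
    (h : ∀ (F : Type) [Field F] [Finite F] [CharP F p], (OddDegree → ∃ d, Odd d ∧ Nat.card F = p ^ d) →
      NI F U (fun i j => ZMod.castHom (dvd_refl p) F (lab χ i j))) : AlwaysFinite p Wild OddDegree T := by
  classical
  intro S hS hST hSW K _ hK A _ _ _ _ _ hA hfin hpm hcard ρ hρ hur hres
  have hp : p.Prime := Fact.out
  have hchar : CharP (ResidueField A) p := Pool.Agent.TH831.OE.charP_res hp hpm
  have hNI := h (ResidueField A) hcard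
  set F := ResidueField A with hF
  have hpT : ∀ l ∈ Tame p S, l ≠ p := by
    rintro l hl rfl
    have h1 := (Finset.mem_filter.1 hl).2
    have h2 := hp.two_le
    have := Nat.le_of_dvd (by omega) h1
    omega
  have hTS : Tame p S ⊆ U := fun l hl => hTU (hST l (Finset.mem_filter.1 hl).1 (Finset.mem_filter.1 hl).2)
  have elk : ∀ l j : ℕ, j ≠ p → ZMod.castHom (dvd_refl p) F (lab χ l j) = linking F j l (χ j) := by
    intro l j hj
    rw [linking_lk χ j l, lab, if_neg hj]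
  have elv : ∀ l : ℕ, ZMod.castHom (dvd_refl p) F (lab χ l p) = (((l - 1) / p : ℕ) : F) := by
    intro l
    rw [lab, if_pos rfl]
    unfold lv
    rw [map_natCast]
  have esum : ∀ (l : ℕ) (z : ℕ → F), ∑ j ∈ Tame p S, ZMod.castHom (dvd_refl p) F (lab χ l j) * z j =
      ∑ j ∈ Tame p S, linking F j l (χ j) * z j := fun l z => sum_congr rfl fun j hj => by rw [elk l j (hpT j hj)]
  refine Pool.Agent.Results.MP_ca71b5_nt.RankTwoExtensions.result p hp2 S hS K hK A hA hfin hpm ρ hρ hur hres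
    (Or.inl ⟨χ, fun l hl => (hχ l (hS l (Finset.mem_filter.1 hl).1) (Finset.mem_filter.1 hl).2).1, ?_⟩)
  intro x y a b hab hxy hp'
  by_cases hpS : p ∈ S
  · have hsub : insert p (Tame p S) ⊆ U := insert_subset (hW (hSW hpS)) hTS
    have hpn : p ∉ Tame p S := fun h => hpT p h rfl
    have es2 : ∀ (l : ℕ) (z : ℕ → F) (c : F), ∑ j ∈ insert p (Tame p S), ZMod.castHom (dvd_refl p) F (lab χ l j) *
        (if j = p then c else z j) = ∑ j ∈ Tame p S, linking F j l (χ j) * z j + (((l - 1) / p : ℕ) : F) * c := by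
      intro l z c
      rw [sum_insert hpn, if_pos rfl, elv, add_comm]
      congr 1
      exact sum_congr rfl fun j hj => by rw [elk l j (hpT j hj), if_neg (hpT j hj)]
    obtain ⟨c, d, hcd, h7⟩ := (hNI.mono hsub) (fun j => if j = p then a else x j) (fun j => if j = p then b else y j) (by
      intro l hl
      rw [es2, es2]
      rcases Finset.mem_insert.1 hl with rfl | hl
      · rw [if_pos rfl, if_pos rfl]
        have h0 : (l - 1) / l = 0 := Nat.div_eq_of_lt (Nat.sub_lt hp.pos one_pos)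
        rw [h0, Nat.cast_zero, zero_mul, zero_mul, add_zero, add_zero]
        exact hp'
      · rw [if_neg (hpT l hl), if_neg (hpT l hl)]
        exact hxy l hl)
    refine ⟨c, d, hcd, ?_, fun l hl => ?_⟩
    · have := h7 p (mem_insert_self _ _)
      rwa [if_pos rfl, if_pos rfl] at this
    · have := h7 l (mem_insert_of_mem hl)
      rwa [if_neg (hpT l hl), if_neg (hpT l hl)] at this
  · obtain ⟨rfl, rfl⟩ := hab hpS
    obtain ⟨c, d, hcd, h7⟩ := (hNI.mono hTS) x y fun l hl => by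
      have := hxy l hl
      rw [mul_zero, add_zero, add_zero] at this
      rw [esum, esum]
      exact this
    exact ⟨c, d, hcd, by rw [mul_zero, mul_zero], h7⟩

/-! ### Two, three and four labels -/

theorem fin2 {L : ℕ → ℕ → ZMod p} {a b : ℕ} (hab : a ≠ b) (h : L a b ≠ 0) (F : Type) [Field F] [CharP F p] :
    NI F {a, b} (fun i j => ZMod.castHom (dvd_refl p) F (L i j)) := by
  refine ni2 hab (Or.inl fun h0 => h ?_)
  exact (map_eq_zero _).1 h0

theorem fin3 {L : ℕ → ℕ → ZMod p} {a b c : ℕ} (hab : a ≠ b) (hac : a ≠ c) (hbc : b ≠ c)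
    (h : L a b * L b c * L c a ≠ L b a * L c b * L a c) (F : Type) [Field F] [CharP F p] :
    NI F {a, b, c} (fun i j => ZMod.castHom (dvd_refl p) F (L i j)) := by
  refine ni3 hab hac hbc fun h0 => h ?_
  apply (ZMod.castHom (dvd_refl p) F).injective
  simpa only [map_mul] using h0

theorem fin4 {L : ℕ → ℕ → ZMod p} {a b c d : ℕ} (hab : a ≠ b) (hac : a ≠ c) (had : a ≠ d) (hbc : b ≠ c)
    (hbd : b ≠ d) (hcd : c ≠ d) (o : Six (ZMod p)) (ho : o = ⟨L a b, L b a, L a c, L c a, L b c, L c b⟩)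
    (h1 : Dl4 o (L a d) (L c d) (L d a) (L d c) ≠ 0)
    (h2 : ¬ IsSquare (Dis o (L a d) (L b d) (L c d) (L d a) (L d b) (L d c)))
    (hp2 : p ≠ 2) (F : Type) [Field F] [Finite F] [CharP F p] (hF : ∃ d, Odd d ∧ Nat.card F = p ^ d) :
    NI F {a, b, c, d} (fun i j => ZMod.castHom (dvd_refl p) F (L i j)) := by
  obtain ⟨f, hf, hc⟩ := hF
  set φ := ZMod.castHom (dvd_refl p) F with hφ
  refine ni4 hab hac had hbc hbd hcd ⟨φ o.m01, φ o.m10, φ o.m02, φ o.m20, φ o.m12, φ o.m21⟩ (by rw [ho]) ?_ ?_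
  · intro h
    apply h1
    apply φ.injective
    rw [map_zero, ← h]
    unfold Dl4
    simp only [map_sub, map_mul]
  · have e : Dis (⟨φ o.m01, φ o.m10, φ o.m02, φ o.m20, φ o.m12, φ o.m21⟩ : Six F) (φ (L a d)) (φ (L b d)) (φ (L c d))
        (φ (L d a)) (φ (L d b)) (φ (L d c)) = φ (Dis o (L a d) (L b d) (L c d) (L d a) (L d b) (L d c)) := by
      unfold Dis Bb Mm Nn Ka Kb Xx Yy Zz Ww Dl4
      simp only [map_sub, map_mul, map_add, map_neg, map_pow, map_ofNat]
    rw [e]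
    exact Pool.Agent.Q202.QT.nonsq_odd hp2 hf hc _ h2

theorem Dis_scale (o : Six (ZMod p)) (A G E C H D c : ZMod p) : Dis o (c * A) (c * G) (c * E) C H D = c ^ 4 * Dis o A G E C H D := by
  unfold Dis Bb Mm Nn Ka Kb Xx Yy Zz Ww Dl4
  ring

theorem Dl4_scale (o : Six (ZMod p)) (A E C D c : ZMod p) : Dl4 o (c * A) (c * E) C D = c * Dl4 o A E C D := by
  unfold Dl4
  ring

/-! ### The step -/

theorem step (hp2 : p ≠ 2) {χ : ∀ j : ℕ, (ZMod j)ˣ →* Multiplicative (ZMod p)} (hχ : Kr χ) {m : ℕ} (l : Fin m → ℕ)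
    (hl : ∀ i, (l i).Prime) (hpl : ∀ i, p ∣ l i - 1) (hli : Function.Injective l) {R : Set ℕ → Prop} {L : List ℝ} {T : Set ℕ}
    (hT : Set.range l = T) (Good : (Fin (m + 1) → ZMod p) → (Fin (m + 1) → ZMod p) → Prop) (hG0 : ∀ w s, Good w s → w ≠ 0)
    (hGsc : ∀ w s (c : ZMod p), c ≠ 0 → Good w s → Good (fun j => c * w j) s) {δ : ℝ} (hδ : δ ≤ 1)
    (hcount : δ * ((p : ℝ) ^ (m + 1) * (p : ℝ) ^ (m + 1)) ≤ (PNum Good : ℝ))
    (h : ∀ q : ℕ, q.Prime → p ∣ q - 1 → q ∉ T → Good (vec χ (Fin.cons p l) q) (Fin.cons (lv p q) fun i => lk χ q (l i)) →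
      Nested p R L (insert q T)) : Nested p R (δ :: L) T := by
  classical
  have hp : p.Prime := Fact.out
  have hp0 : (0 : ℝ) < p := by exact_mod_cast hp.pos
  intro ε hε
  have hd := densN (p := p) hp2 χ hχ l hl hpl hli Good hG0 hGsc δ hδ (by
    rw [le_div_iff₀ (by
      have : 0 < Fintype.card (Fin (m + 1) → ZMod p) := Fintype.card_pos
      positivity), Fintype.card_fun, ZMod.card, Fintype.card_fin]
    refine le_trans (le_of_eq ?_) (hcount.trans (le_of_eq ?_))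
    · push_cast
      ring
    · unfold PNum cnt
      congr!) ε hε
  filter_upwards [hd] with x hx
  rw [Pr_eq]
  refine le_trans hx (Nat.cast_le.2 (card_le_card ?_))
  intro q hq
  obtain ⟨h1, h2, h3⟩ := (@Finset.mem_filter _ _ _ _ _).1 hq
  obtain ⟨-, hqp, hpq⟩ := mem_P1.1 h1
  have h4 : q ∉ T := by
    rw [← hT]
    rintro ⟨i, hi⟩
    exact h2 i hi.symm
  exact (@Finset.mem_filter _ _ _ _ _).2 ⟨h1, h4, h q hqp hpq h4 h3⟩

/-- the three proportions -/
theorem shares (hp2 : p ≠ 2) : (3 : ℝ) ≤ p ∧ (1 : ℝ) - 1 / p ≤ 1 ∧ ((1 : ℝ) - 1 / p) ^ 2 ≤ 1 ∧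
    (1 / 2 : ℝ) * (1 - 1 / p) ^ 3 * (1 - 2 / p) ^ 2 * (1 - 3 / p) ≤ 1 := by
  have hp : p.Prime := Fact.out
  have hp3 : (3 : ℝ) ≤ p := by
    have h2 := hp.two_le
    have : 3 ≤ p := by omega
    exact_mod_cast this
  have hp0 : (0 : ℝ) < p := by linarith
  have h1 : (0 : ℝ) ≤ 1 / p := by positivity
  have h3 : (3 : ℝ) / p ≤ 1 := by
    rw [div_le_one hp0]
    exact hp3
  have e2 : (2 : ℝ) / p = 2 * (1 / p) := by ring
  have e3 : (3 : ℝ) / p = 3 * (1 / p) := by ring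
  rw [e3] at h3
  rw [e2, e3]
  set t : ℝ := 1 / p with ht
  have a1 : (1 - t) ^ 3 ≤ 1 := pow_le_one₀ (by linarith) (by linarith)
  have a2 : (1 - 2 * t) ^ 2 ≤ 1 := pow_le_one₀ (by linarith) (by linarith)
  have a3 : 1 - 3 * t ≤ 1 := by linarith
  refine ⟨hp3, by linarith, pow_le_one₀ (by linarith) (by linarith), ?_⟩
  have b1 : (1 - t) ^ 3 * (1 - 2 * t) ^ 2 ≤ 1 := mul_le_one₀ a1 (by positivity) a2
  have b2 : (1 - t) ^ 3 * (1 - 2 * t) ^ 2 * (1 - 3 * t) ≤ 1 := mul_le_one₀ b1 (by linarith) a3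
  have b3 : (1 / 2 : ℝ) * (1 - t) ^ 3 * (1 - 2 * t) ^ 2 * (1 - 3 * t) = 1 / 2 * ((1 - t) ^ 3 * (1 - 2 * t) ^ 2 * (1 - 3 * t)) := by
    ring
  rw [b3]
  linarith

/-- the condition for the second prime -/
def G1 (w _ : Fin 1 → ZMod p) : Prop := w 0 ≠ 0

/-- the condition for the third prime -/
def G2 (a b : ZMod p) (w s : Fin 2 → ZMod p) : Prop := a * w 1 * s 0 ≠ b * s 1 * w 0

/-- the condition for the fourth prime -/
def G3 (o : Six (ZMod p)) (w s : Fin 3 → ZMod p) : Prop := Dl4 o (w 0) (w 2) (s 0) (s 2) ≠ 0 ∧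
  ¬ IsSquare (Dis o (w 0) (w 1) (w 2) (s 0) (s 1) (s 2))

theorem G1_ne {w s : Fin 1 → ZMod p} (h : G1 w s) : w ≠ 0 := by
  rintro rfl
  exact h rfl

theorem G2_ne {a b : ZMod p} {w s : Fin 2 → ZMod p} (h : G2 a b w s) : w ≠ 0 := by
  rintro rfl
  apply h
  simp

theorem G3_ne {o : Six (ZMod p)} {w s : Fin 3 → ZMod p} (h : G3 o w s) : w ≠ 0 := by
  rintro rfl
  apply h.1
  unfold Dl4
  simp

theorem G1_sc {w s : Fin 1 → ZMod p} {c : ZMod p} (hc : c ≠ 0) (h : G1 w s) : G1 (fun j => c * w j) s :=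
  mul_ne_zero hc h

theorem G2_sc {a b : ZMod p} {w s : Fin 2 → ZMod p} {c : ZMod p} (hc : c ≠ 0) (h : G2 a b w s) :
    G2 a b (fun j => c * w j) s := by
  intro h'
  apply h
  apply mul_left_cancel₀ hc
  linear_combination h'

theorem G3_sc {o : Six (ZMod p)} {w s : Fin 3 → ZMod p} {c : ZMod p} (hc : c ≠ 0) (h : G3 o w s) :
    G3 o (fun j => c * w j) s := by
  refine ⟨?_, ?_⟩
  · rw [Dl4_scale]
    exact mul_ne_zero hc h.1
  · rw [Dis_scale]
    rintro ⟨r, hr⟩
    apply h.2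
    refine ⟨r / c ^ 2, ?_⟩
    field_simp
    linear_combination hr

theorem c1 (hp2 : p ≠ 2) : ((1 : ℝ) - 1 / p) * (p : ℝ) ^ 2 ≤ (PNum (G1 (p := p)) : ℝ) := by
  have h := num1 (F := ZMod p)
  rw [ZMod.card] at h
  have hp3 := (shares (p := p) hp2).1
  refine le_trans (le_of_eq ?_) h
  have hp0 : (p : ℝ) ≠ 0 := by linarith
  field_simp

theorem c2 (hp2 : p ≠ 2) {a b : ZMod p} (ha : a ≠ 0) : ((1 : ℝ) - 1 / p) ^ 2 * (p : ℝ) ^ 4 ≤ (PNum (G2 a b) : ℝ) := by
  have h := num2 (F := ZMod p) (l10 := b) ha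
  rw [ZMod.card] at h
  have hp3 := (shares (p := p) hp2).1
  refine le_trans (le_of_eq ?_) h
  have hp0 : (p : ℝ) ≠ 0 := by linarith
  field_simp

theorem c3 (hp2 : p ≠ 2) {o : Six (ZMod p)} (ho : Yy o ≠ 0) :
    ((1 / 2 : ℝ) * (1 - 1 / p) ^ 3 * (1 - 2 / p) ^ 2 * (1 - 3 / p)) * (p : ℝ) ^ 6 ≤ (PNum (G3 o) : ℝ) := by
  have hp : p.Prime := Fact.out
  have h3 : 3 ≤ p := by
    have := hp.two_le
    omega
  have h := num3 (F := ZMod p) (by
    have : ((2 : ℕ) : ZMod p) ≠ 0 := by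
      rw [Ne, ZMod.natCast_eq_zero_iff]
      intro h
      have := Nat.le_of_dvd (by norm_num) h
      omega
    exact_mod_cast this) (by rw [ZMod.card]; exact h3) o ho
  rw [ZMod.card] at h
  have hp3 := (shares (p := p) hp2).1
  refine le_trans (le_of_eq ?_) h
  have hp0 : (p : ℝ) ≠ 0 := by linarith
  field_simp

/-- ignore the first coordinate -/
def Tl {k : ℕ} (G : (Fin k → ZMod p) → (Fin k → ZMod p) → Prop) (w s : Fin (k + 1) → ZMod p) : Prop :=
  G (fun i => w i.succ) (fun i => s i.succ)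

theorem Tl_ne {k : ℕ} {G : (Fin k → ZMod p) → (Fin k → ZMod p) → Prop} (h : ∀ w s, G w s → w ≠ 0) (w s : Fin (k + 1) → ZMod p)
    (hw : Tl G w s) : w ≠ 0 := by
  rintro rfl
  exact h _ _ hw rfl

theorem Tl_card {k : ℕ} {G : (Fin k → ZMod p) → (Fin k → ZMod p) → Prop} {δ : ℝ}
    (h : δ * (p : ℝ) ^ (2 * k) ≤ (PNum G : ℝ)) : δ * ((p : ℝ) ^ (k + 1) * (p : ℝ) ^ (k + 1)) ≤ (PNum (Tl G) : ℝ) := by
  refine le_trans ?_ (PNum_tail (F := ZMod p) G)
  rw [ZMod.card]
  refine le_trans (le_of_eq ?_) (mul_le_mul_of_nonneg_left h (by positivity))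
  ring

/-! ### The tame case -/

section
variable {χ : ∀ j : ℕ, (ZMod j)ˣ →* Multiplicative (ZMod p)}

/-- the six linking numbers -/
noncomputable def sx (χ : ∀ j : ℕ, (ZMod j)ˣ →* Multiplicative (ZMod p)) (a b c : ℕ) : Six (ZMod p) :=
  ⟨lab χ a b, lab χ b a, lab χ a c, lab χ c a, lab χ b c, lab χ c b⟩

theorem ne_p {q : ℕ} (hq : q.Prime) (h : p ∣ q - 1) : q ≠ p := by
  rintro rfl
  have h2 := hq.two_le
  have := Nat.le_of_dvd (by omega) h
  omega

theorem lab_of {i j : ℕ} (h : j ≠ p) : lab χ i j = lk χ i j := if_neg h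

theorem tame4 (hp2 : p ≠ 2) (hχ : Kr χ) {a b c : ℕ} (ha : a.Prime ∧ p ∣ a - 1) (hb : b.Prime ∧ p ∣ b - 1)
    (hc : c.Prime ∧ p ∣ c - 1) (hab : a ≠ b) (hac : a ≠ c) (hbc : b ≠ c) (hY : Yy (sx χ a b c) ≠ 0) :
    Nested p (AlwaysFinite p False True) [(1 / 2 : ℝ) * (1 - 1 / p) ^ 3 * (1 - 2 / p) ^ 2 * (1 - 3 / p)] {c, b, a} := by
  have hap := ne_p ha.1 ha.2
  have hbp := ne_p hb.1 hb.2
  have hcp := ne_p hc.1 hc.2
  refine step hp2 hχ ![a, b, c] ?_ ?_ ?_ ?_ (Tl (G3 (sx χ a b c))) (Tl_ne fun w s => G3_ne) (fun w s c hc h => G3_sc hc h)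
    (shares hp2).2.2.2 (Tl_card (c3 hp2 hY)) ?_
  · intro i
    fin_cases i
    · exact ha.1
    · exact hb.1
    · exact hc.1
  · intro i
    fin_cases i
    · exact ha.2
    · exact hb.2
    · exact hc.2
  · intro i j hij
    fin_cases i <;> fin_cases j <;> simp_all
  · ext x
    simp
  · intro q hq hpq hqT hG
    have hqp := ne_p hq hpq
    simp only [Set.mem_insert_iff, Set.mem_singleton_iff, not_or] at hqT
    refine crit hp2 hχ {a, b, c, q} ?_ (fun h => h.elim) fun F _ _ _ hF => ?_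
    · intro x hx
      simp only [Set.mem_insert_iff, Set.mem_singleton_iff] at hx
      simp only [coe_insert, coe_singleton, Set.mem_insert_iff, Set.mem_singleton_iff]
      tauto
    · refine fin4 hab hac (Ne.symm hqT.2.2) hbc (Ne.symm hqT.2.1) (Ne.symm hqT.1) (sx χ a b c) rfl ?_ ?_ hp2 F (hF trivial)
      · rw [lab_of hqp, lab_of hqp, lab_of hap, lab_of hcp]
        exact hG.1
      · rw [lab_of hqp, lab_of hqp, lab_of hqp, lab_of hap, lab_of hbp, lab_of hcp]
        exact hG.2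

theorem Y_iff {a b c : ℕ} (h : Yy (sx χ a b c) ≠ 0) :
    lab χ a b * lab χ b c * lab χ c a ≠ lab χ b a * lab χ c b * lab χ a c := by
  intro h'
  apply h
  show lab χ b c * lab χ a b * lab χ c a - lab χ c b * lab χ b a * lab χ a c = 0
  linear_combination h'

theorem tame3 (hp2 : p ≠ 2) (hχ : Kr χ) {a b : ℕ} (ha : a.Prime ∧ p ∣ a - 1) (hb : b.Prime ∧ p ∣ b - 1)
    (hab : a ≠ b) (h0 : lab χ a b ≠ 0) {R : Set ℕ → Prop} {L : List ℝ}
    (h : ∀ c, c.Prime ∧ p ∣ c - 1 → a ≠ c → b ≠ c → Yy (sx χ a b c) ≠ 0 → Nested p R L {c, b, a}) :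
    Nested p R ((1 - 1 / p) ^ 2 :: L) {b, a} := by
  have hap := ne_p ha.1 ha.2
  have hbp := ne_p hb.1 hb.2
  refine step hp2 hχ ![a, b] ?_ ?_ ?_ ?_ (Tl (G2 (lab χ a b) (lab χ b a))) (Tl_ne fun w s => G2_ne)
    (fun w s c hc h => G2_sc hc h) (shares hp2).2.2.1 (Tl_card (c2 hp2 h0)) ?_
  · intro i
    fin_cases i
    · exact ha.1
    · exact hb.1
  · intro i
    fin_cases i
    · exact ha.2
    · exact hb.2
  · intro i j hij
    fin_cases i <;> fin_cases j <;> simp_all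
  · ext x
    simp
  · intro q hq hpq hqT hG
    have hqp := ne_p hq hpq
    simp only [Set.mem_insert_iff, Set.mem_singleton_iff, not_or] at hqT
    refine h q ⟨hq, hpq⟩ (Ne.symm hqT.2) (Ne.symm hqT.1) fun hY => hG ?_
    have hY' : lab χ b q * lab χ a b * lab χ q a - lab χ q b * lab χ b a * lab χ a q = 0 := hY
    show lab χ a b * lk χ b q * lk χ q a = lab χ b a * lk χ q b * lk χ a q
    rw [← lab_of hqp, ← lab_of hqp, ← lab_of hap, ← lab_of hbp]
    linear_combination hY'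

theorem tame2 (hp2 : p ≠ 2) (hχ : Kr χ) {a : ℕ} (ha : a.Prime ∧ p ∣ a - 1) {R : Set ℕ → Prop} {L : List ℝ}
    (h : ∀ b, b.Prime ∧ p ∣ b - 1 → a ≠ b → lab χ a b ≠ 0 → Nested p R L {b, a}) :
    Nested p R ((1 - 1 / p) :: L) {a} := by
  refine step hp2 hχ ![a] ?_ ?_ ?_ ?_ (Tl G1) (Tl_ne fun w s => G1_ne)
    (fun w s c hc h => G1_sc hc h) (shares hp2).2.1 (Tl_card (c1 hp2)) ?_
  · intro i
    fin_cases i
    exact ha.1
  · intro i
    fin_cases i
    exact ha.2
  · intro i j hij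
    fin_cases i <;> fin_cases j <;> simp_all
  · ext x
    simp
  · intro q hq hpq hqT hG
    have hqp := ne_p hq hpq
    simp only [Set.mem_singleton_iff] at hqT
    refine h q ⟨hq, hpq⟩ (Ne.symm hqT) fun hY => hG ?_
    show lk χ a q = 0
    rw [← lab_of hqp]
    exact hY

theorem fin_tame2 (hp2 : p ≠ 2) (hχ : Kr χ) {a b : ℕ} (hab : a ≠ b) (h : lab χ a b ≠ 0) :
    AlwaysFinite p False False {b, a} := by
  refine crit hp2 hχ {a, b} ?_ (fun h => h.elim) fun F _ _ _ _ => fin2 hab h F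
  intro x hx
  simp only [Set.mem_insert_iff, Set.mem_singleton_iff] at hx
  simp only [coe_insert, coe_singleton, Set.mem_insert_iff, Set.mem_singleton_iff]
  tauto

theorem fin_tame3 (hp2 : p ≠ 2) (hχ : Kr χ) {a b c : ℕ} (hab : a ≠ b) (hac : a ≠ c) (hbc : b ≠ c)
    (h : Yy (sx χ a b c) ≠ 0) : AlwaysFinite p False False {c, b, a} := by
  refine crit hp2 hχ {a, b, c} ?_ (fun h => h.elim) fun F _ _ _ _ => fin3 hab hac hbc (Y_iff h) F
  intro x hx
  simp only [Set.mem_insert_iff, Set.mem_singleton_iff] at hx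
  simp only [coe_insert, coe_singleton, Set.mem_insert_iff, Set.mem_singleton_iff]
  tauto

/-! ### The wild case -/

theorem wild4 (hp2 : p ≠ 2) (hχ : Kr χ) {b c : ℕ} (hb : b.Prime ∧ p ∣ b - 1)
    (hc : c.Prime ∧ p ∣ c - 1) (hbc : b ≠ c) (hY : Yy (sx χ p b c) ≠ 0) :
    Nested p (AlwaysFinite p True True) [(1 / 2 : ℝ) * (1 - 1 / p) ^ 3 * (1 - 2 / p) ^ 2 * (1 - 3 / p)]
      (insert c (insert b ∅)) := by
  have hbp := ne_p hb.1 hb.2
  have hcp := ne_p hc.1 hc.2
  refine step hp2 hχ ![b, c] ?_ ?_ ?_ ?_ (G3 (sx χ p b c)) (fun w s => G3_ne) (fun w s c hc h => G3_sc hc h)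
    (shares hp2).2.2.2 ((le_of_eq (by ring)).trans (c3 hp2 hY)) ?_
  · intro i
    fin_cases i
    · exact hb.1
    · exact hc.1
  · intro i
    fin_cases i
    · exact hb.2
    · exact hc.2
  · intro i j hij
    fin_cases i <;> fin_cases j <;> simp_all
  · ext x
    simp
  · intro q hq hpq hqT hG
    have hqp := ne_p hq hpq
    simp only [Set.mem_insert_iff, Set.mem_empty_iff_false, or_false, not_or] at hqT
    refine crit hp2 hχ {p, b, c, q} ?_ (fun _ => mem_insert_self _ _) fun F _ _ _ hF => ?_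
    · intro x hx
      simp only [Set.mem_insert_iff, Set.mem_empty_iff_false, or_false] at hx
      simp only [coe_insert, coe_singleton, Set.mem_insert_iff, Set.mem_singleton_iff]
      tauto
    · refine fin4 hbp.symm hcp.symm hqp.symm hbc (Ne.symm hqT.2) (Ne.symm hqT.1) (sx χ p b c) rfl ?_ ?_ hp2 F (hF trivial)
      · rw [lab_of hqp, lab_of hqp, lab_of hcp, lab, if_pos rfl]
        exact hG.1
      · rw [lab_of hqp, lab_of hqp, lab_of hqp, lab_of hbp, lab_of hcp, lab, if_pos rfl]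
        exact hG.2

theorem wild3 (hp2 : p ≠ 2) (hχ : Kr χ) {b : ℕ} (hb : b.Prime ∧ p ∣ b - 1) (h0 : lab χ p b ≠ 0) {R : Set ℕ → Prop}
    {L : List ℝ} (h : ∀ c, c.Prime ∧ p ∣ c - 1 → b ≠ c → Yy (sx χ p b c) ≠ 0 → Nested p R L (insert c (insert b ∅))) :
    Nested p R ((1 - 1 / p) ^ 2 :: L) (insert b ∅) := by
  have hbp := ne_p hb.1 hb.2
  refine step hp2 hχ ![b] ?_ ?_ ?_ ?_ (G2 (lab χ p b) (lab χ b p)) (fun w s => G2_ne)
    (fun w s c hc h => G2_sc hc h) (shares hp2).2.2.1 ((le_of_eq (by ring)).trans (c2 hp2 h0)) ?_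
  · intro i
    fin_cases i
    exact hb.1
  · intro i
    fin_cases i
    exact hb.2
  · intro i j hij
    fin_cases i <;> fin_cases j <;> simp_all
  · ext x
    simp
  · intro q hq hpq hqT hG
    have hqp := ne_p hq hpq
    simp only [Set.mem_insert_iff, Set.mem_empty_iff_false, or_false] at hqT
    refine h q ⟨hq, hpq⟩ (Ne.symm hqT) fun hY => hG ?_
    have hY' : lab χ b q * lab χ p b * lab χ q p - lab χ q b * lab χ b p * lab χ p q = 0 := hY
    have e : lab χ q p = lv p q := if_pos rfl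
    show lab χ p b * lk χ b q * lv p q = lab χ b p * lk χ q b * lk χ p q
    rw [← lab_of hqp, ← lab_of hqp, ← lab_of hbp, ← e]
    linear_combination hY'

theorem wild2 (hp2 : p ≠ 2) (hχ : Kr χ) {R : Set ℕ → Prop} {L : List ℝ}
    (h : ∀ b, b.Prime ∧ p ∣ b - 1 → lab χ p b ≠ 0 → Nested p R L (insert b ∅)) :
    Nested p R ((1 - 1 / p) :: L) ∅ := by
  refine step hp2 hχ (Fin.elim0 : Fin 0 → ℕ) (fun i => i.elim0) (fun i => i.elim0) (fun i => i.elim0) (Set.range_eq_empty _)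
    G1 (fun w s => G1_ne) (fun w s c hc h => G1_sc hc h) (shares hp2).2.1 ((le_of_eq (by ring)).trans (c1 hp2)) ?_
  intro q hq hpq _ hG
  have hqp := ne_p hq hpq
  refine h q ⟨hq, hpq⟩ fun hY => hG ?_
  show lk χ p q = 0
  rw [← lab_of hqp]
  exact hY

theorem fin_wild2 (hp2 : p ≠ 2) (hχ : Kr χ) {b : ℕ} (hb : b.Prime ∧ p ∣ b - 1) (h : lab χ p b ≠ 0) :
    AlwaysFinite p True False (insert b ∅) := by
  refine crit hp2 hχ {p, b} ?_ (fun _ => mem_insert_self _ _) fun F _ _ _ _ => fin2 (ne_p hb.1 hb.2).symm h F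
  intro x hx
  simp only [Set.mem_insert_iff, Set.mem_empty_iff_false, or_false] at hx
  simp only [coe_insert, coe_singleton, Set.mem_insert_iff, Set.mem_singleton_iff]
  tauto

theorem fin_wild3 (hp2 : p ≠ 2) (hχ : Kr χ) {b c : ℕ} (hb : b.Prime ∧ p ∣ b - 1) (hc : c.Prime ∧ p ∣ c - 1) (hbc : b ≠ c)
    (h : Yy (sx χ p b c) ≠ 0) : AlwaysFinite p True False (insert c (insert b ∅)) := by
  refine crit hp2 hχ {p, b, c} ?_ (fun _ => mem_insert_self _ _) fun F _ _ _ _ =>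
    fin3 (ne_p hb.1 hb.2).symm (ne_p hc.1 hc.2).symm hbc (Y_iff h) F
  intro x hx
  simp only [Set.mem_insert_iff, Set.mem_empty_iff_false, or_false] at hx
  simp only [coe_insert, coe_singleton, Set.mem_insert_iff, Set.mem_singleton_iff]
  tauto

end

end

/-- **Everywhere unramified representations of rank two: most pairs and triples and half of the quadruples of primes.** -/
theorem result (p : ℕ) [Fact p.Prime] (hp2 : p ≠ 2) :
    (∀ q₁ : ℕ, q₁.Prime → p ∣ q₁ - 1 →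
      Nested p (AlwaysFinite p False False) [1 - 1 / p] {q₁} ∧
      Nested p (AlwaysFinite p False False) [1 - 1 / p, (1 - 1 / p) ^ 2] {q₁} ∧
      Nested p (AlwaysFinite p False True)
        [1 - 1 / p, (1 - 1 / p) ^ 2, (1 / 2 : ℝ) * (1 - 1 / p) ^ 3 * (1 - 2 / p) ^ 2 * (1 - 3 / p)] {q₁}) ∧
    Nested p (AlwaysFinite p True False) [1 - 1 / p] ∅ ∧
    Nested p (AlwaysFinite p True False) [1 - 1 / p, (1 - 1 / p) ^ 2] ∅ ∧
    Nested p (AlwaysFinite p True True)
      [1 - 1 / p, (1 - 1 / p) ^ 2, (1 / 2 : ℝ) * (1 - 1 / p) ^ 3 * (1 - 2 / p) ^ 2 * (1 - 3 / p)] ∅ := by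
  obtain ⟨χ, hχ, -⟩ := extend (p := p) (fun _ => 1) ∅ (fun j hj => absurd hj (Set.notMem_empty j))
  refine ⟨fun a hap hpa => ⟨?_, ?_, ?_⟩, ?_, ?_, ?_⟩
  · exact tame2 hp2 hχ ⟨hap, hpa⟩ fun b _ hab h => fin_tame2 hp2 hχ hab h
  · exact tame2 hp2 hχ ⟨hap, hpa⟩ fun b hb hab h => tame3 hp2 hχ ⟨hap, hpa⟩ hb hab h fun c _ hac hbc hY =>
      fin_tame3 hp2 hχ hab hac hbc hY
  · exact tame2 hp2 hχ ⟨hap, hpa⟩ fun b hb hab h => tame3 hp2 hχ ⟨hap, hpa⟩ hb hab h fun c hc hac hbc hY =>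
      tame4 hp2 hχ ⟨hap, hpa⟩ hb hc hab hac hbc hY
  · exact wild2 hp2 hχ fun b hb h => fin_wild2 hp2 hχ hb h
  · exact wild2 hp2 hχ fun b hb h => wild3 hp2 hχ hb h fun c hc hbc hY => fin_wild3 hp2 hχ hb hc hbc hY
  · exact wild2 hp2 hχ fun b hb h => wild3 hp2 hχ hb h fun c hc hbc hY => wild4 hp2 hχ hb hc hbc hY

end Pool.Agent.Results.MP_ca71b5_nt.RankTwoMostPrimes
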